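import Pool.Agent.WAG.StC
import Pool.Agent.WAF.MUL

/-!
# Module SCH (MP_6c4da4_ag, helper12): the Frobenius is semisimple
-/

set_option autoImplicit false

open CategoryTheory MonoidalCategory CartesianMonoidalCategory Limits Polynomial

universe v u w x

namespace Pool.Agent.WAG

open CHS

namespace SCH

/-- a multiset of algebraic numbers with rational power sums is stable under conjugation -/
theorem conj (s : Multiset ℂ) (hs : ∀ z ∈ s, IsAlgebraic ℚ z)
    (hr : ∀ n : ℕ, ∃ r : ℚ, (r : ℂ) = (s.map (fun z => z ^ n)).sum) (w z : ℂ) (hw : w ∈ s)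
    (hwz : minpoly ℚ w = minpoly ℚ z) : z ∈ s := by
  classical
  have hz : IsAlgebraic ℚ z := by
    have h1 : IsIntegral ℚ w := (hs w hw).isIntegral
    by_contra hz
    have h2 : minpoly ℚ z = 0 := minpoly.eq_zero (fun h => hz h.isAlgebraic)
    exact minpoly.ne_zero h1 (hwz.trans h2)
  have hL : ∀ y : ℂ, IsAlgebraic ℚ y → y ∈ algebraicClosure ℚ ℂ :=
    fun y hy => (mem_algebraicClosure_iff).2 hy
  obtain ⟨w', hw1⟩ : ∃ w' : algebraicClosure ℚ ℂ, (w' : ℂ) = w := ⟨⟨w, hL w (hs w hw)⟩, rfl⟩
  obtain ⟨z', hz1⟩ : ∃ z' : algebraicClosure ℚ ℂ, (z' : ℂ) = z := ⟨⟨z, hL z hz⟩, rfl⟩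
  have hmw : minpoly ℚ w' = minpoly ℚ w := by
    rw [← hw1]
    exact (minpoly.algebraMap_eq (algebraMap (algebraicClosure ℚ ℂ) ℂ).injective w').symm
  have hmz : minpoly ℚ z' = minpoly ℚ z := by
    rw [← hz1]
    exact (minpoly.algebraMap_eq (algebraMap (algebraicClosure ℚ ℂ) ℂ).injective z').symm
  haveI : IsAlgClosure ℚ (algebraicClosure ℚ ℂ) := algebraicClosure.isAlgClosure ℚ ℂ
  haveI : Normal ℚ (algebraicClosure ℚ ℂ) := IsAlgClosure.normal ℚ _
  have hc : IsConjRoot ℚ z' w' := by
    unfold IsConjRoot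
    rw [hmz, hmw, hwz]
  obtain ⟨σ, hσ⟩ := isConjRoot_iff_exists_algEquiv.1 hc
  -- the multiset in the field of algebraic numbers
  obtain ⟨s', hs'⟩ : ∃ s' : Multiset (algebraicClosure ℚ ℂ), s'.map (fun y : algebraicClosure ℚ ℂ => (y : ℂ)) = s := by
    refine ⟨s.pmap (fun y hy => (⟨y, hy⟩ : algebraicClosure ℚ ℂ)) (fun y hy => hL y (hs y hy)), ?_⟩
    rw [Multiset.map_pmap]
    exact (Multiset.pmap_eq_map _ (fun y : ℂ => y) s _).trans (Multiset.map_id' s)
  have hw' : w' ∈ s' := by
    rw [← hs', Multiset.mem_map] at hw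
    obtain ⟨y, hy, hyw⟩ := hw
    have : y = w' := Subtype.ext (hyw.trans hw1.symm)
    rwa [← this]
  have hp : ∀ n : ℕ, ((s'.map (fun y => ((σ y : algebraicClosure ℚ ℂ) : ℂ))).map
      (fun z => z ^ n)).sum = (s.map (fun z => z ^ n)).sum := by
    intro n
    obtain ⟨r, hr'⟩ := hr n
    have h2 : (s'.map (fun y : algebraicClosure ℚ ℂ => ((y : ℂ)) ^ n)).sum = (r : ℂ) := by
      rw [hr', ← hs', Multiset.map_map]
      rfl
    have h1 : (s'.map (fun y : algebraicClosure ℚ ℂ => y ^ n)).sum =
        algebraMap ℚ (algebraicClosure ℚ ℂ) r := by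
      apply (algebraMap (algebraicClosure ℚ ℂ) ℂ).injective
      rw [← IsScalarTower.algebraMap_apply, map_multiset_sum, Multiset.map_map, eq_ratCast, ← h2]
      rfl
    have h3 := congrArg σ h1
    rw [AlgEquiv.commutes, map_multiset_sum, Multiset.map_map] at h3
    have h4 := congrArg (algebraMap (algebraicClosure ℚ ℂ) ℂ) h3
    rw [← IsScalarTower.algebraMap_apply, map_multiset_sum, Multiset.map_map, eq_ratCast, hr']
      at h4
    rw [← h4, Multiset.map_map]
    refine congrArg Multiset.sum (Multiset.map_congr rfl fun y _ => ?_)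
    simp only [Function.comp_apply, map_pow]
    rfl
  have h5 := Pool.Agent.WAF.t_MUL _ _ hp
  rw [← h5]
  refine Multiset.mem_map.2 ⟨w', hw', ?_⟩
  rw [hσ, hz1]

variable {A : Type w} [Ring A] [Algebra ℚ A] {E : Type x} [AddCommGroup E] [Module ℂ E]
  [Module.Finite ℂ E]

theorem aeval_rho (ρ : A →+* Module.End ℂ E)
    (hρ : ∀ r : ℚ, ρ (algebraMap ℚ A r) = algebraMap ℂ (Module.End ℂ E) (r : ℂ)) (F : A)
    (Q : ℚ[X]) : ρ (aeval F Q) = aeval (ρ F) (Q.map (algebraMap ℚ ℂ)) := by
  rw [aeval_def, hom_eval₂, aeval_def, eval₂_map]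
  congr 1
  ext r
  simp [hρ]

/-- the algebra -/
theorem core [Module.Finite ℚ A] (ρ : A →+* Module.End ℂ E)
    (hρ : ∀ r : ℚ, ρ (algebraMap ℚ A r) = algebraMap ℂ (Module.End ℂ E) (r : ℂ)) (F : A)
    (hF : ∀ g : A, F * g = g * F) (hk : ∀ f : A, (∀ g : A, IsNilpotent (ρ (f * g))) → f = 0)
    (hr : ∀ n : ℕ, ∃ r : ℚ, (r : ℂ) = ((ρ F).charpoly.roots.map (fun z => z ^ n)).sum) :
    ∃ P : ℚ[X], Squarefree P ∧ aeval F P = 0 ∧
      ∀ z : ℂ, aeval z P = 0 ↔ z ∈ (ρ F).charpoly.roots := by
  classical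
  have hint : IsIntegral ℚ F := Algebra.IsIntegral.isIntegral F
  have hP0 : minpoly ℚ F ≠ 0 := minpoly.ne_zero hint
  have hcen : ∀ (Q : ℚ[X]) (g : A), aeval F Q * g = g * aeval F Q := by
    intro Q g
    have h1 : Commute F g := hF g
    have h2 : Commute (aeval F Q) g := by
      induction Q using Polynomial.induction_on' with
      | add p q hp hq =>
        rw [map_add]
        exact hp.add_left hq
      | monomial n a =>
        rw [aeval_monomial]
        exact (show Commute (algebraMap ℚ A a) g from Algebra.commutes a g).mul_left (h1.pow_left n)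
    exact h2
  have hmem : ∀ z : ℂ, z ∈ (ρ F).charpoly.roots ↔ z ∈ spectrum ℂ (ρ F) := by
    intro z
    rw [Polynomial.mem_roots (LinearMap.charpoly_monic _).ne_zero,
      ← Module.End.hasEigenvalue_iff_isRoot_charpoly, Module.End.hasEigenvalue_iff_mem_spectrum]
  have hroot : ∀ z ∈ (ρ F).charpoly.roots, aeval z (minpoly ℚ F) = 0 := by
    intro z hz
    rw [Polynomial.mem_roots (LinearMap.charpoly_monic _).ne_zero,
      ← Module.End.hasEigenvalue_iff_isRoot_charpoly] at hz
    obtain ⟨y, hy⟩ := hz.exists_hasEigenvector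
    have h1 := Module.End.aeval_apply_of_hasEigenvector (f := ρ F)
      (p := (minpoly ℚ F).map (algebraMap ℚ ℂ)) hy
    rw [← aeval_rho ρ hρ, minpoly.aeval, map_zero, LinearMap.zero_apply] at h1
    rcases smul_eq_zero.1 h1.symm with h2 | h2
    · rw [Polynomial.eval_map, ← aeval_def] at h2
      exact h2
    · exact absurd h2 hy.2
  refine ⟨minpoly ℚ F, ?_, minpoly.aeval ℚ F, fun z => ⟨?_, hroot z⟩⟩
  · intro R hR
    obtain ⟨S, hS⟩ := hR
    have h1 : aeval F (R * S) = 0 := by
      refine hk _ fun g => ⟨2, ?_⟩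
      rw [← map_pow]
      have h2 : (aeval F (R * S) * g) ^ 2 = 0 := by
        have h3 : aeval F (R * S) * aeval F (R * S) = 0 := by
          rw [← map_mul]
          have e : R * S * (R * S) = minpoly ℚ F * S := by
            rw [hS]
            ring
          rw [e, map_mul, minpoly.aeval, zero_mul]
        rw [pow_two]
        calc aeval F (R * S) * g * (aeval F (R * S) * g)
            = aeval F (R * S) * (g * aeval F (R * S)) * g := by noncomm_ring
          _ = aeval F (R * S) * (aeval F (R * S) * g) * g := by rw [← hcen (R * S) g]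
          _ = aeval F (R * S) * aeval F (R * S) * (g * g) := by noncomm_ring
          _ = 0 := by rw [h3, zero_mul]
      rw [h2, map_zero]
    have h2 : minpoly ℚ F ∣ R * S := minpoly.dvd ℚ F h1
    obtain ⟨Q, hQ⟩ := h2
    have h3 : R * S ≠ 0 := by
      intro h
      apply hP0
      rw [hS, mul_assoc, h, mul_zero]
    have h4 : R * S * 1 = R * S * (R * Q) := by
      rw [mul_one]
      conv_lhs => rw [hQ, hS]
      ring
    have h5 := mul_left_cancel₀ h3 h4
    exact IsUnit.of_mul_eq_one Q h5.symm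
  · intro hz
    have hzi : IsIntegral ℚ z := by
      have : IsAlgebraic ℚ z := ⟨minpoly ℚ F, hP0, hz⟩
      exact this.isIntegral
    obtain ⟨S, hS⟩ : minpoly ℚ z ∣ minpoly ℚ F := minpoly.dvd ℚ z hz
    have hSF : aeval F S ≠ 0 := by
      intro h
      obtain ⟨Q, hQ⟩ := minpoly.dvd ℚ F h
      have hS0 : S ≠ 0 := by
        intro h
        rw [h, mul_zero] at hS
        exact hP0 hS
      have h4 : S * 1 = S * (minpoly ℚ z * Q) := by
        rw [mul_one]
        conv_lhs => rw [hQ, hS]
        ring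
      have h5 := mul_left_cancel₀ hS0 h4
      exact minpoly.not_isUnit ℚ z (IsUnit.of_mul_eq_one Q h5.symm)
    -- some eigenvalue is a root of the minimal polynomial of `z`
    obtain ⟨w, hw, hwR⟩ : ∃ w ∈ (ρ F).charpoly.roots, aeval w (minpoly ℚ z) = 0 := by
      by_contra hcon
      push Not at hcon
      apply hSF
      refine hk _ fun g => ?_
      have hu : IsUnit (ρ (aeval F (minpoly ℚ z))) := by
        rw [aeval_rho ρ hρ]
        by_contra hnu
        have h0 : (0 : ℂ) ∈ spectrum ℂ (aeval (ρ F) ((minpoly ℚ z).map (algebraMap ℚ ℂ))) := by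
          rw [spectrum.zero_mem_iff]
          exact hnu
        rw [spectrum.map_polynomial_aeval_of_degree_pos] at h0
        · obtain ⟨w, hw, hw0⟩ := h0
          refine hcon w ((hmem w).2 hw) ?_
          rw [aeval_def, ← Polynomial.eval_map]
          exact hw0
        · rw [degree_map]
          exact minpoly.degree_pos hzi
      have h0 : ρ (aeval F S) = 0 := by
        have h1 : ρ (aeval F (minpoly ℚ z)) * ρ (aeval F S) = 0 := by
          rw [← map_mul, ← map_mul, ← hS, minpoly.aeval, map_zero]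
        exact (hu.mul_right_eq_zero).1 h1
      rw [map_mul, h0, zero_mul]
      exact IsNilpotent.zero
    refine conj _ (fun y hy => ⟨minpoly ℚ F, hP0, hroot y hy⟩) hr w z hw ?_
    exact (minpoly.eq_of_irreducible_of_monic (minpoly.irreducible hzi) hwR
      (minpoly.monic hzi)).symm

end SCH

theorem t_SCH : S_SCH.{v, u, w, x} := by
  classical
  intro V _ _ T K Y hev hfin hnum
  have hsub : Module.finrank ℂ (K.toOld.evenPart Y) = 0 := by
    have h1 : (K.toOld.onEven (T.frob.onMot Y)).charpoly.roots = 0 := hev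
    have h2 := (IsAlgClosed.splits
      (K.toOld.onEven (T.frob.onMot Y)).charpoly).natDegree_eq_card_roots
    rw [h1, LinearMap.charpoly_natDegree, Multiset.card_zero] at h2
    exact h2
  have htr0 : ∀ f : Y ⟶ Y, LinearMap.trace ℂ _ (K.toOld.onEven f) = 0 := by
    intro f
    haveI : Subsingleton (K.toOld.evenPart Y) := Module.finrank_zero_iff.1 hsub
    have : K.toOld.onEven f = 0 := Subsingleton.elim _ _
    rw [this, map_zero]
  let ρ : End Y →+* Module.End ℂ (K.toOld.oddPart Y) :=
    { toFun := fun f => K.toOld.onOdd (f : Y ⟶ Y)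
      map_one' := by
        ext x
        change K.toOld.act Y.p x = x
        exact (K.toOld.mem_oddPart.1 x.2).1
      map_mul' := fun f g => by
        ext x
        change K.toOld.act (T.toOld.cp (g : Y ⟶ Y).1 (f : Y ⟶ Y).1) x =
          K.toOld.act (f : Y ⟶ Y).1 (K.toOld.act (g : Y ⟶ Y).1 x)
        rw [K.toOld.act_cp]
      map_zero' := by
        ext x
        change K.toOld.act (0 : T.toOld.CH (Y.X ⊗ Y.X)) x.1 = 0
        rw [map_zero]
        rfl
      map_add' := fun f g => by
        ext x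
        change K.toOld.act ((f : Y ⟶ Y).1 + (g : Y ⟶ Y).1) x =
          K.toOld.act (f : Y ⟶ Y).1 x + K.toOld.act (g : Y ⟶ Y).1 x
        rw [map_add]
        rfl }
  have hρ : ∀ r : ℚ, ρ (algebraMap ℚ (End Y) r) =
      algebraMap ℂ (Module.End ℂ (K.toOld.oddPart Y)) (r : ℂ) := by
    intro r
    ext x
    have h1 : (algebraMap ℚ (End Y) r : End Y) = r • (1 : End Y) := Algebra.algebraMap_eq_smul_one r
    rw [h1]
    change K.toOld.act (r • Y.p) x = (r : ℂ) • (x : K.toOld.H Y.X)
    rw [K.toOld.act_smul, LinearMap.smul_apply, (K.toOld.mem_oddPart.1 x.2).1]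
  haveI : Module.Finite ℚ (End Y) := hfin
  have hcent : ∀ g : End Y, _root_.Mot.component K.toOld.frobenius.F Y * g =
      g * _root_.Mot.component K.toOld.frobenius.F Y := by
    intro g
    exact (K.toOld.frobenius.F.naturality (g : Y ⟶ Y))
  obtain ⟨P, h1, h2, h3⟩ := SCH.core ρ hρ (_root_.Mot.component K.toOld.frobenius.F Y) hcent
    (by
      intro f hf
      refine hnum f fun g => ?_
      rw [CHM.Mot.trace_eq]
      have h4 := K.toOld.trace_eq (f ≫ g : Y ⟶ Y)
      have h5 : IsNilpotent (K.toOld.onOdd (f ≫ g : Y ⟶ Y)) := by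
        have h6 : IsNilpotent (ρ (@HMul.hMul (End Y) (End Y) (End Y) _ g f)) := by
          have h7 := hf g
          rw [map_mul] at h7 ⊢
          obtain ⟨n, hn⟩ := h7
          refine ⟨n + 1, ?_⟩
          have h8 : (ρ g * ρ f) ^ (n + 1) = ρ g * (ρ f * ρ g) ^ n * ρ f := by
            clear hn h4
            induction n with
            | zero => simp
            | succ n ih =>
              rw [pow_succ, ih, pow_succ]
              noncomm_ring
          rw [h8, hn]
          simp
        exact h6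
      rw [htr0, (LinearMap.isNilpotent_trace_of_isNilpotent h5).eq_zero, sub_zero] at h4
      have h9 : T.toOld.deg (T.toOld.pull (lift (𝟙 Y.X) (𝟙 Y.X)) (f ≫ g : Y ⟶ Y).1) = 0 := by
        exact_mod_cast h4
      rw [h9, zero_smul])
    (by
      intro n
      obtain ⟨r, hr⟩ := K.toOld.frobenius.scalar
        (_root_.Mot.trace (_root_.Mot.component K.toOld.frobenius.F Y ^ n))
      have h4 := K.toOld.frobenius.trace_formula Y n r hr
      rw [hev, Multiset.map_zero, Multiset.sum_zero, zero_sub] at h4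
      refine ⟨-r, ?_⟩
      push_cast
      rw [h4, neg_neg]
      rfl)
  exact ⟨P, h1, h2, h3⟩

end Pool.Agent.WAG
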