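import Pool.Agent.WAG.Main0
import Pool.Agent.WAG.SCH

/-!
# Assembly of block WAG (MP_cb388a_ag, MP_6c4da4_ag; helper51): the final theorems
-/

open CategoryTheory MonoidalCategory Limits Polynomial Filter

universe v u w x

namespace Pool.Agent.WAG

open Pool.Agent.TJ2 Pool.Agent.TJ3 Pool.Agent.TJ4 Pool.Agent.WAV Pool.Agent.WAE Pool.Agent.WAF
  MotP.GGap

noncomputable section

/-- arithmetic: the criterion gives the partner property -/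
theorem arith (q : ℕ) (ν : AbsoluteValue Qb ℝ) (S : Set ℤ[X]) (hq : IsPrimePow q) (hv : Ab q ν)
    (hS : S ⊆ FL q) (hC : Cr q ν S) :
    Par q (Adm q S) ∧ ∀ z : ℂ, Adm q S z → ‖z‖ ^ 2 = (q : ℝ) :=
  ⟨par_of_cr hq hv hS hC, fun z hz => norm_adm t_ADN hq.two_le hS z hz⟩

/-- density -/
theorem dens : ∃ S : ℕ → Set ℤ[X],
    (∀ q, IsPrimePow q → S q ⊆ FL q ∧ Ord 1 q ⊆ S q ∧ (∃ ν, Ab q ν) ∧
      ∀ ν, Ab q ν → Cr q ν (S q)) ∧
    ∀ (g : ℕ) (A : ℕ → Set ℤ[X]), 1 ≤ g →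
      (∀ q, IsPrimePow q → Ord g q ⊆ A q ∧ A q ⊆ AVP g q) →
      Tendsto (fun q : {q : ℕ // IsPrimePow q} => ((S q ∩ A q).ncard : ℝ) / (A q).ncard)
        atTop (nhds 1) := by
  obtain ⟨S, h1, h2⟩ := set_all
  refine ⟨S, fun q hq => ⟨(h1 q hq).2.1, (h1 q hq).2.2.1, t_EXV q hq, (h1 q hq).2.2.2⟩, ?_⟩
  intro g A hg hA
  exact density_all hg (h2 g hg) A hA

/-- the structure `AVE` on the category of Chow motives -/
def ofChow {V : Type u} [Category.{v} V] [CartesianMonoidalCategory V]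
    {T : CHS.ChowTheory.{v, u, w} V} {K : CHS.Cohomology.{v, u, w, x} T}
    (D : CHS.AbelianMotives K) : AVE K.toOld.frobenius T.q :=
  toAVE t_ECH t_YCH t_TCH t_SCH D

/-- the final theorem for Chow motives -/
theorem main_chow :
    (∀ (V : Type u) [Category.{v} V] [CartesianMonoidalCategory V]
      (T : CHS.ChowTheory.{v, u, w} V) (K : CHS.Cohomology.{v, u, w, x} T)
      (D : CHS.AbelianMotives K) (Λ : ℂ → Prop),
      Par T.q Λ → (∀ z, Λ z → ‖z‖ ^ 2 = (T.q : ℝ)) →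
      CHS.IsAbelian (CHS.CatBy (D.Gn Λ)) ∧
      (∀ (M N : CHS.Mot T) (f : M ⟶ N), CHS.GenBy (D.Gn Λ) M → CHS.GenBy (D.Gn Λ) N →
        T.NumTrivial (CHS.Mot.Hom.val f) → f = 0) ∧
      ∀ X : V, CHS.GenBy (D.Gn Λ) (CHS.Mot.h T X) → ∀ a : T.CH X, T.NumTrivial a → a = 0) ∧
    (∀ (q : ℕ) (ν : AbsoluteValue Qb ℝ) (S : Set ℤ[X]), IsPrimePow q → Ab q ν → S ⊆ FL q →
      Cr q ν S → Par q (Adm q S) ∧ ∀ z : ℂ, Adm q S z → ‖z‖ ^ 2 = (q : ℝ)) ∧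
    ∃ S : ℕ → Set ℤ[X],
      (∀ q, IsPrimePow q → S q ⊆ FL q ∧ Ord 1 q ⊆ S q ∧ (∃ ν, Ab q ν) ∧
        ∀ ν, Ab q ν → Cr q ν (S q)) ∧
      ∀ (g : ℕ) (A : ℕ → Set ℤ[X]), 1 ≤ g →
        (∀ q, IsPrimePow q → Ord g q ⊆ A q ∧ A q ⊆ AVP g q) →
        Tendsto (fun q : {q : ℕ // IsPrimePow q} => ((S q ∩ A q).ncard : ℝ) / (A q).ncard)
          atTop (nhds 1) :=
  ⟨fun _ _ _ _ _ D Λ hPar hA => abS t_SCH D Λ hPar hA, arith, dens⟩

end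

end Pool.Agent.WAG
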