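import Pool.Agent.WAG.ADefs
import Pool.Agent.WAG.Main

/-!
# Almost all abelian varieties: the short definitions agree with the old ones (helper51)
-/

set_option autoImplicit false

open Polynomial IntermediateField Filter

namespace AlmostAll

open Pool.Agent

theorem RW_eq (g q : ℕ) : RW g q = TJ2.RW g q := rfl

theorem Ord_eq (g q : ℕ) : Ord g q = TJ2.Ord g q := rfl

theorem All_eq (g q : ℕ) : All g q = WAF.AVP g q := rfl

theorem Om_eq (q : ℕ) (h : ℤ[X]) : Om q h = TJ2.Om q h := rfl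

theorem FL_eq (q : ℕ) : FL q = TJ4.FL q := rfl

theorem Cr_iff (q : ℕ) (v : AbsoluteValue (AlgebraicClosure ℚ) ℝ) (S : Set ℤ[X]) :
    Cr q v S ↔ TJ4.Cr q v S := Iff.rfl

theorem Val_iff (q : ℕ) (v : AbsoluteValue (AlgebraicClosure ℚ) ℝ) : Val q v ↔ TJ4.Ab q v :=
  ⟨fun h => ⟨h.na, h.lt⟩, fun h => ⟨h.na, h.lt⟩⟩

theorem Par_iff (q : ℕ) (Λ : ℂ → Prop) : Par q Λ ↔ WAF.Par q Λ := Iff.rfl

theorem weil_zero (q : ℕ) (h : ℤ[X]) (a : ℂ) (ha : a ≠ 0) (hr : aeval (a + (q : ℂ) / a) h = 0) :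
    aeval a (TJ2.weil q h) = 0 := by
  have h0 : aeval a (TJ2.weil q h) = ∑ i ∈ Finset.range (h.natDegree + 1),
      (h.coeff i : ℂ) * (a ^ 2 + (q : ℂ)) ^ i * a ^ (h.natDegree - i) := by
    unfold TJ2.weil
    rw [map_sum]
    refine Finset.sum_congr rfl fun i _ => ?_
    simp
  have h1 : ∑ i ∈ Finset.range (h.natDegree + 1),
      (h.coeff i : ℂ) * (a ^ 2 + (q : ℂ)) ^ i * a ^ (h.natDegree - i) =
      a ^ h.natDegree * aeval (a + (q : ℂ) / a) h := by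
    rw [aeval_eq_sum_range, Finset.mul_sum]
    refine Finset.sum_congr rfl fun i hi => ?_
    rw [Finset.mem_range] at hi
    have h2 : a ^ 2 + (q : ℂ) = a * (a + (q : ℂ) / a) := by
      field_simp
    have h3 : a ^ h.natDegree = a ^ i * a ^ (h.natDegree - i) := by
      rw [← pow_add]
      congr 1
      omega
    rw [h2, h3, mul_pow, zsmul_eq_mul]
    ring
  rw [h0, h1, hr, mul_zero]

theorem Adm.old {q : ℕ} {S : Set ℤ[X]} {z : ℂ} (h : Adm q S z) : TJ3.Adm q S z := by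
  obtain ⟨N, hN, h | ⟨h, hS, r, hr0, hr, hz⟩⟩ := h
  · exact ⟨N, hN, Or.inl h⟩
  · exact ⟨N, hN, Or.inr ⟨h, hS, r, weil_zero q h r hr0 hr, hz⟩⟩

/-- the criterion gives the partner property -/
theorem arith (q : ℕ) (v : AbsoluteValue (AlgebraicClosure ℚ) ℝ) (S : Set ℤ[X])
    (hq : IsPrimePow q) (hv : Val q v) (hS : S ⊆ FL q) (hC : Cr q v S) :
    Par q (Adm q S) ∧ ∀ z, Adm q S z → ‖z‖ ^ 2 = (q : ℝ) := by
  obtain ⟨h1, h2⟩ := WAG.arith q v S hq ((Val_iff q v).1 hv) hS ((Cr_iff q v S).1 hC)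
  refine ⟨?_, fun z hz => h2 z hz.old⟩
  intro z l hz hl j N hN hj hN'
  exact h1 z l hz.old (fun y hy => (hl y hy).old) j N hN hj hN'

/-- density -/
theorem dens : ∃ S : ℕ → Set ℤ[X],
    (∀ q, IsPrimePow q → S q ⊆ FL q ∧ Ord 1 q ⊆ S q ∧ (∃ v, Val q v) ∧
      ∀ v, Val q v → Cr q v (S q)) ∧
    ∀ (g : ℕ) (A : ℕ → Set ℤ[X]), 1 ≤ g →
      (∀ q, IsPrimePow q → Ord g q ⊆ A q ∧ A q ⊆ All g q) →
      Tendsto (fun q : {q : ℕ // IsPrimePow q} => ((S q ∩ A q).ncard : ℝ) / (A q).ncard)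
        atTop (nhds 1) := by
  obtain ⟨S, h1, h2⟩ := WAG.dens
  refine ⟨S, fun q hq => ?_, h2⟩
  obtain ⟨h3, h4, ⟨v, hv⟩, h5⟩ := h1 q hq
  exact ⟨h3, h4, ⟨v, (Val_iff q v).2 hv⟩, fun v hv => h5 v ((Val_iff q v).1 hv)⟩

end AlmostAll
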