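import Mathlib

/-!
# Almost all abelian varieties: arithmetic definitions (MP_6c4da4_ag, MP_cb388a_ag, helper51)

`q` is a power of the prime number `p = q.minFac`.  A polynomial `h` of degree `g` with integral
coefficients stands for the isogeny classes of abelian varieties `A` of dimension `g` over the field
with `q` elements whose Frobenius has the characteristic polynomial `x ^ g h (x + q / x)`.
-/

set_option autoImplicit false

open Polynomial IntermediateField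

namespace AlmostAll

/-- The real Weil polynomials of degree `g`: monic, all complex roots are real and in
`[-2√q, 2√q]`. -/
def RW (g q : ℕ) : Set ℤ[X] :=
  {h | h.Monic ∧ h.natDegree = g ∧
    ∀ z : ℂ, aeval z h = 0 → z.im = 0 ∧ |z.re| ≤ 2 * Real.sqrt q}

/-- The ordinary ones: the constant coefficient is prime to `q`. -/
def Ord (g q : ℕ) : Set ℤ[X] := {h | h ∈ RW g q ∧ ¬ (q.minFac : ℤ) ∣ h.coeff 0}

/-- The real Weil polynomials with `h(0)` prime to `q` or `q ∣ h(0) ^ 2`; by the theorem of Honda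
and Tate the `h` of the isogeny classes of abelian varieties are among them. -/
def All (g q : ℕ) : Set ℤ[X] :=
  {h | h ∈ RW g q ∧ (¬ (q.minFac : ℤ) ∣ h.coeff 0 ∨ (q : ℤ) ∣ h.coeff 0 ^ 2)}

/-- The roots of the Weil polynomial `x ^ g h (x + q / x)`. -/
def Om (q : ℕ) (h : ℤ[X]) : Set (AlgebraicClosure ℚ) :=
  {a | a ≠ 0 ∧ aeval (a + (q : AlgebraicClosure ℚ) / a) h = 0}

/-- The real Weil polynomials `h` (of degree `≥ 1`) such that the Galois group is transitive on the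
roots `a` of `x ^ g h (x + q / x)`, contains for each `a` the transposition of `a` and `q / a`, and
no `a` is supersingular. -/
def FL (q : ℕ) : Set ℤ[X] :=
  {h | 1 ≤ h.natDegree ∧ h ∈ RW h.natDegree q ∧
    (∀ a ∈ Om q h, ∀ b ∈ Om q h, ∃ σ : AlgebraicClosure ℚ ≃ₐ[ℚ] AlgebraicClosure ℚ, σ a = b) ∧
    (∀ a ∈ Om q h, ∃ σ : AlgebraicClosure ℚ ≃ₐ[ℚ] AlgebraicClosure ℚ, σ a = q / a ∧
      ∀ b ∈ Om q h, b ≠ a → b ≠ q / a → σ b = b) ∧
    ∀ a ∈ Om q h, ∀ N : ℕ, 1 ≤ N → a ^ (2 * N) ≠ (q : AlgebraicClosure ℚ) ^ N}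

/-- Geometric isogeny: two roots differ by a root of unity. -/
def GIso (q : ℕ) (h h' : ℤ[X]) : Prop :=
  ∃ a ∈ Om q h, ∃ a' ∈ Om q h', ∃ N : ℕ, 1 ≤ N ∧ a ^ N = a' ^ N

/-- `v` is a non-archimedean absolute value over `p`. -/
structure Val (q : ℕ) (v : AbsoluteValue (AlgebraicClosure ℚ) ℝ) : Prop where
  na : IsNonarchimedean v
  lt : v ((q.minFac : ℕ) : AlgebraicClosure ℚ) < 1

/-- The slope vector of `a`: `σ ↦ 1 - 2 w (σ a)`, `w` the valuation with `w (q) = 1`. -/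
noncomputable def slope (q : ℕ) (v : AbsoluteValue (AlgebraicClosure ℚ) ℝ)
    (a : AlgebraicClosure ℚ) (σ : AlgebraicClosure ℚ ≃ₐ[ℚ] AlgebraicClosure ℚ) : ℝ :=
  1 - 2 * (Real.log (v (σ a)) / Real.log (v (q : AlgebraicClosure ℚ)))

/-- `B` is one root, or two different roots which are not conjugate. -/
def RS (q : ℕ) (h : ℤ[X]) (B : Finset (AlgebraicClosure ℚ)) : Prop :=
  (∀ b ∈ B, b ∈ Om q h ∧ (q : AlgebraicClosure ℚ) / b ∉ B) ∧ (B.card = 1 ∨ B.card = 2)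

/-- The field generated by the sum and the product of the elements of `B`. -/
noncomputable def Fd (B : Finset (AlgebraicClosure ℚ)) : IntermediateField ℚ (AlgebraicClosure ℚ) :=
  adjoin ℚ {∑ b ∈ B, b, ∏ b ∈ B, b}

/-- The criterion. -/
def Cr (q : ℕ) (v : AbsoluteValue (AlgebraicClosure ℚ) ℝ) (S : Set ℤ[X]) : Prop :=
  ∀ (n : ℕ) (h : Fin n → ℤ[X]) (B : Fin n → Finset (AlgebraicClosure ℚ)),
    (∀ i, h i ∈ S ∧ RS q (h i) (B i)) → (∃ i, (B i).card = 1) → (∀ i j, Fd (B i) = Fd (B j)) →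
    (∀ i j, i ≠ j → ¬ GIso q (h i) (h j)) →
    LinearIndependent ℚ (fun i σ => ∑ b ∈ B i, slope q v b σ)

/-- Admissible eigenvalues for `S`: a power of `z` is a power of `√q`, or of a root of
`x ^ g h (x + q / x)`, `h ∈ S`. -/
def Adm (q : ℕ) (S : Set ℤ[X]) (z : ℂ) : Prop :=
  ∃ N : ℕ, 1 ≤ N ∧ (z ^ (2 * N) = (q : ℂ) ^ N ∨
    ∃ h ∈ S, ∃ r : ℂ, r ≠ 0 ∧ aeval (r + q / r) h = 0 ∧ z ^ N = r ^ N)

/-- Partners: if a power of `z y₁ ⋯ y_(2 j - 1)` is the same power of `q ^ j`, then some `z y_i` is `q`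
up to a root of unity. -/
def Par (q : ℕ) (Λ : ℂ → Prop) : Prop :=
  ∀ (z : ℂ) (l : List ℂ), Λ z → (∀ y ∈ l, Λ y) → ∀ j N : ℕ, 1 ≤ N → l.length + 1 = 2 * j →
    (z * l.prod) ^ N = ((q : ℂ) ^ j) ^ N → ∃ y ∈ l, ∃ M : ℕ, 1 ≤ M ∧ (z * y) ^ M = (q : ℂ) ^ M

end AlmostAll
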