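import Pool.Agent.MotE.Defs
import Pool.Agent.CHS.Coh

/-!
# The Chow motives of finite fields and abelian varieties over a finite field: definitions
(MP_6c4da4_ag, helper51)
-/

set_option autoImplicit false

open CategoryTheory MonoidalCategory CartesianMonoidalCategory Limits

universe v u w x

namespace CHS

variable {V : Type u} [Category.{v} V] [CartesianMonoidalCategory V]

/-- The Lefschetz motive `(point, 1, -1)`. -/
def Mot.lef (T : ChowTheory.{v, u, w} V) : Mot T :=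
  ⟨𝟙_ V, T.graph (𝟙 (𝟙_ V)), -1, graph_mem T (𝟙_ V), graph_cp T (𝟙_ V)⟩

/-- The powers of the Frobenius endomorphism of `X`. -/
def ChowTheory.frPow (T : ChowTheory.{v, u, w} V) (X : V) : ℕ → (X ⟶ X)
  | 0 => 𝟙 X
  | n + 1 => T.frPow X n ≫ T.Fr X

namespace Mot

variable {T : ChowTheory.{v, u, w} V}

/-- `M` and `N` are isomorphic. -/
def Isom (M N : Mot T) : Prop := Nonempty (M ≅ N)

/-- `M` is a direct summand of a direct sum of copies of `N`. -/
def Within (M N : Mot T) : Prop :=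
  ∃ (n : ℕ) (i : Fin n → (M ⟶ N)) (p : Fin n → (N ⟶ M)), ∑ k, i k ≫ p k = 𝟙 M

/-- `U` is a direct sum of `Y` and `Z`. -/
def IsSum (U Y Z : Mot T) : Prop :=
  ∃ (i : Y ⟶ U) (p : U ⟶ Y) (j : Z ⟶ U) (r : U ⟶ Z),
    i ≫ p = 𝟙 Y ∧ j ≫ r = 𝟙 Z ∧ p ≫ i + r ≫ j = 𝟙 U

/-- An idempotent endomorphism of `M` of trace `0` is `0`. -/
def TraceZero (M : Mot T) : Prop :=
  ∀ e : M ⟶ M, e ≫ e = e → T.deg (T.pull (lift (𝟙 _) (𝟙 _)) (Mot.Hom.val e)) = 0 → e = 0

/-- A numerically trivial endomorphism of `M` is `0`. -/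
def NumZero (M : Mot T) : Prop := ∀ f : M ⟶ M, T.NumTrivial (Mot.Hom.val f) → f = 0

end Mot

/-- Finite fields and abelian varieties in the category of Chow motives over the field `k` with `q`
elements: `E N` is the spectrum of the field with `q ^ N` elements, and `Ab` is the class of the motives
`Y = (X, p, 0)` isomorphic to `h¹(A)` for an abelian variety `A` over `k`. -/
structure AbelianMotives {T : ChowTheory.{v, u, w} V} (K : Cohomology.{v, u, w, x} T) where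
  E : ℕ → V
  /-- `E 1` is the point -/
  point : Nonempty (E 1 ≅ 𝟙_ V)
  dimE : ∀ N, 1 ≤ N → T.dim (E N) = 0
  /-- the `N`-th power of the Frobenius endomorphism of `E N` is the identity -/
  frobE : ∀ N, 1 ≤ N → T.frPow (E N) N = 𝟙 (E N)
  /-- the cohomology of `E N`: in degree `0`, eigenvalues of Frobenius the `N`-th roots of unity -/
  degE : ∀ N, 1 ≤ N → ∀ (i : ℤ) (x : K.H (E N)), x ∈ K.gr (E N) i → i ≠ 0 → x = 0
  rootE : ∀ N, 1 ≤ N → ∀ z : ℂ, z ^ N = 1 → K.mult (Mot.h T (E N)) z = 1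
  /-- `E N × E N` is the disjoint union of the graphs of the powers of Frobenius -/
  sumE : ∀ N, 1 ≤ N → ∑ i ∈ Finset.range N, T.graph (T.frPow (E N) i) = 1
  /-- `E N × E M` is a disjoint union of quotients of `E (N M)` -/
  prodE : ∀ N M, 1 ≤ N → 1 ≤ M → Mot.Within (Mot.h T (E N ⊗ E M)) (Mot.h T (E (N * M)))
  Ab : Mot T → Prop
  /-- `Y = (X, p, 0)` has cohomology only in degree `1` -/
  twist : ∀ Y, Ab Y → Y.m = 0
  degree : ∀ Y, Ab Y → ∀ (i : ℤ) (x : K.H Y.X), x ∈ K.gr Y.X i → i ≠ 1 → K.act Y.p x = 0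
  /-- a polarisation -/
  pol : ∀ Y, Ab Y → Mot.Isom (Y.dual.tensor (Mot.lef T)) Y
  /-- finite dimensionality (Shermenev, Kimura) -/
  kimura : ∀ Y, Ab Y → (Y.tensor Y).TraceZero
  /-- Tate's theorem -/
  tate : ∀ Y, Ab Y → K.TateFormula Y
  num : ∀ Y, Ab Y → Y.NumZero
  /-- products of abelian varieties -/
  sum : ∀ Y Z, Ab Y → Ab Z → ∃ U, Ab U ∧ Mot.IsSum U Y Z
  /-- restriction of scalars from the extension of degree `N` -/
  res : ∀ Y, Ab Y → ∀ N, 1 ≤ N → Ab ((Mot.h T (E N)).tensor Y)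

/-- The generators: the motives `h(E N)`, and the `Y` in `Ab` all of whose Frobenius eigenvalues are
in `Λ`. -/
def AbelianMotives.Gn {T : ChowTheory.{v, u, w} V} {K : Cohomology.{v, u, w, x} T}
    (D : AbelianMotives K) (Λ : ℂ → Prop) (Y : Mot T) : Prop :=
  (∃ N, 1 ≤ N ∧ Y = Mot.h T (D.E N)) ∨ (D.Ab Y ∧ ∀ z : ℂ, K.mult Y z ≠ 0 → Λ z)

end CHS
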