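import Pool.Agent.WAF.Defs

/-!
# The motives of finite fields and abelian varieties in a tensor category (MP_cb388a_ag, helper51)

The structure `AVE` is `AVT` of block WAF with Tate's theorem and the triviality of numerically
trivial elements stated for the endomorphisms of `h¹(A)`.
-/

open CategoryTheory MonoidalCategory BraidedCategory Limits Polynomial

universe v u

namespace Pool.Agent.WAG

open Pool.Agent.TJ2 Pool.Agent.TJ3 Pool.Agent.WAE Pool.Agent.WAF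

noncomputable section

open Classical in
/-- the sum of the squares of the multiplicities -/
def sqs (s : Multiset ℂ) : ℕ := ∑ z ∈ s.toFinset, s.count z ^ 2

variable {C : Type u} [Category.{v} C] [Preadditive C] [Linear ℚ C] [MonoidalCategory C]
  [SymmetricCategory C] [MonoidalPreadditive C] [MonoidalLinear ℚ C] [RightRigidCategory C]

/-- Objects `T` (Lefschetz motive), `T'` (its inverse), `L N` (the motive of the field with `q ^ N`
elements) and a class `Ab` of objects (the motives `h¹(A)` of the abelian varieties over the field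
with `q` elements), in a category with a Frobenius structure. -/
structure AVE (W : MotP.Frobenius C) (q : ℕ) where
  T : C
  T' : C
  L : ℕ → C
  Ab : C → Prop
  unitT : Nonempty (T ⊗ T' ≅ 𝟙_ C)
  frobT : W.F.app T = (q : ℚ) • 𝟙 T
  oneL : Nonempty (L 1 ≅ 𝟙_ C)
  frobL : ∀ N, 1 ≤ N → Mot.component W.F (L N) ^ N = 1
  evenL : ∀ N, 1 ≤ N → W.even (L N) = (X ^ N - 1 : ℚ[X]).aroots ℂ
  oddL : ∀ N, 1 ≤ N → W.odd (L N) = 0
  sumL : ∀ N, 1 ≤ N → ∃ (r : L N ⟶ 𝟙_ C) (s : 𝟙_ C ⟶ L N),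
    ∑ i ∈ Finset.range N, Mot.component W.F (L N) ^ i = (r ≫ s : L N ⟶ L N)
  dualL : ∀ N, 1 ≤ N → Nonempty ((L N)ᘁ ≅ L N)
  tensL : ∀ N N', 1 ≤ N → 1 ≤ N' → Smd (L (N * N')) (L N ⊗ L N')
  even : ∀ Y, Ab Y → W.even Y = 0
  semi : ∀ Y, Ab Y → ∃ P : ℚ[X], Squarefree P ∧ aeval (Mot.component W.F Y) P = 0 ∧
    ∀ z : ℂ, aeval z P = 0 ↔ z ∈ W.odd Y
  pol : ∀ Y, Ab Y → Nonempty (Yᘁ ⊗ T ≅ Y)
  kim : ∀ Y, Ab Y → ∀ e : Y ⊗ Y ⟶ Y ⊗ Y, e ≫ e = e → Mot.trace e = 0 → e = 0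
  tate : ∀ Y, Ab Y → Module.finrank ℚ (Y ⟶ Y) = sqs (W.odd Y)
  num : ∀ Y, Ab Y → ∀ f : Y ⟶ Y, MotP.NumTrivial f → f = 0
  sum : ∀ Y Z, Ab Y → Ab Z → ∃ (V : C) (i : Y ⟶ V) (p : V ⟶ Y) (j : Z ⟶ V) (r : V ⟶ Z),
    Ab V ∧ i ≫ p = 𝟙 Y ∧ j ≫ r = 𝟙 Z ∧ p ≫ i + r ≫ j = 𝟙 V
  res : ∀ Y, Ab Y → ∀ N, 1 ≤ N → Ab (L N ⊗ Y)

variable {W : MotP.Frobenius C} {q : ℕ}

/-- the generators: `T`, `L N` for `N ≥ 1`, and the `Y` in `Ab` all of whose Frobenius eigenvalues have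
the property `Λ` -/
def AVE.Gn (D : AVE W q) (Λ : ℂ → Prop) (Y : C) : Prop :=
  Y = D.T ∨ (∃ N, 1 ≤ N ∧ Y = D.L N) ∨ (D.Ab Y ∧ ∀ z ∈ W.odd Y, Λ z)

/-- the generators for a set `S` of real Weil polynomials: `T`, `L N` for `N ≥ 1`, and the `Y` in `Ab` all
of whose Frobenius eigenvalues are, up to roots of unity, `√q` or roots of `weil q h`, `h ∈ S` -/
def AVE.Obj (D : AVE W q) (S : Set ℤ[X]) (Y : C) : Prop := D.Gn (Adm q S) Y

end

end Pool.Agent.WAG
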