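import Pool.Agent.WAG.CDefs
import Pool.Agent.WAG.Defs
import Pool.Agent.MotE.Fin
import Pool.Agent.CHM.AlmostAll

/-!
# Statements of block WAG, second part: Chow motives (MP_6c4da4_ag, helper51)

`Mot T` (library `CHS`) and `CHM.Mot T.toOld` (library `CHM`) are the same category; the second one has the
tensor structure and the Frobenius structure `K.toOld.frobenius`.  Files to imitate:
`Pool/Agent/CHM/AlmostAll.lean` (the same for the old structure), `Pool/Agent/MotE/Fin.lean`,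
`Pool/Agent/CHS/Mult.lean`, `Num.lean`, `Equiv.lean`, `Pool/Agent/CHM/*.lean`.

Module `X`: theorem `t_X : S_X` (or `t_X : S_Y → S_Z → S_X` if the doc string says USES `Y`, `Z`; do not
import the other modules of WAG) in `Pool/Agent/WAG/X.lean`.
-/

set_option autoImplicit false

open CategoryTheory MonoidalCategory CartesianMonoidalCategory Limits Polynomial

universe v u w x

namespace Pool.Agent.WAG

open CHS

/-- ECH. The motives of finite fields.
PROOF. `L N = CHM.Mot.h T.toOld (D.E N) 0`.  (1) `CHM.Mot.hIso`.  (2) `(W.F.app (L N)).1` is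
`q ^ 0 • cp (diag) (graph Fr) = graph Fr`; powers: `gr'` of a composition; `frobE`.  (3), (4): `K.gr (E N) 0 = ⊤`
(`degE`, `internal`), so the sign operator is the identity, the odd part is `0`; `F ^ N = 1`, so all roots of
the characteristic polynomial are `N`-th roots of unity, each with multiplicity `1` (`rootE`, `mult_old`,
`roots_frobM`, `multM`); `(X ^ N - 1 : ℚ[X]).aroots ℂ` is also the set of the `N`-th roots of unity without
multiplicities (separable).  (5) `r`, `s` with value `1` in `CH (E N × point)`, `CH (point × E N)`: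
`cp 1 1 = 1` (`CHM.Mot.pt_cp`, `cp_pt` in `CHM/Sums.lean`), and `sumE`.  (6) `(h X 0)ᘁ = h X (dim X)` up to
`CHM.Mot.mk_congr`, `tr_diag` (as in `gen_pt` in `CHM/AlmostAll.lean`), `dimE`.  (7) `prodE` and `CHM.Mot.h_tensor`. -/
def S_ECH : Prop :=
  ∀ (V : Type u) [Category.{v} V] [CartesianMonoidalCategory V] (T : ChowTheory.{v, u, w} V)
    (K : Cohomology.{v, u, w, x} T) (D : AbelianMotives K),
    Nonempty (CHM.Mot.h T.toOld (D.E 1) 0 ≅ 𝟙_ (CHM.Mot T.toOld)) ∧ ∀ N : ℕ, 1 ≤ N →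
      _root_.Mot.component K.toOld.frobenius.F (CHM.Mot.h T.toOld (D.E N) 0) ^ N = 1 ∧
      K.toOld.frobenius.even (CHM.Mot.h T.toOld (D.E N) 0) = (X ^ N - 1 : ℚ[X]).aroots ℂ ∧
      K.toOld.frobenius.odd (CHM.Mot.h T.toOld (D.E N) 0) = 0 ∧
      (∃ (r : CHM.Mot.h T.toOld (D.E N) 0 ⟶ 𝟙_ (CHM.Mot T.toOld))
        (s : 𝟙_ (CHM.Mot T.toOld) ⟶ CHM.Mot.h T.toOld (D.E N) 0),
        ∑ i ∈ Finset.range N,
          _root_.Mot.component K.toOld.frobenius.F (CHM.Mot.h T.toOld (D.E N) 0) ^ i =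
            (r ≫ s : CHM.Mot.h T.toOld (D.E N) 0 ⟶ CHM.Mot.h T.toOld (D.E N) 0)) ∧
      Nonempty ((CHM.Mot.h T.toOld (D.E N) 0)ᘁ ≅ CHM.Mot.h T.toOld (D.E N) 0) ∧
      ∀ M : ℕ, 1 ≤ M → Pool.Agent.WAE.Smd (CHM.Mot.h T.toOld (D.E (N * M)) 0)
        (CHM.Mot.h T.toOld (D.E N) 0 ⊗ CHM.Mot.h T.toOld (D.E M) 0)

/-- YCH. The motives `h¹(A)`, first part.
PROOF. (1) `evenPart = ⊥`: for `x` with `p x = x`, `x = ∑ x_i` (`exists_sum`), `p x_i = 0` for `i ≠ 1`, so
`x = p x_1` is in degree `1` (`act_mem` with `r = 0`) and the sign operator is `-1` on it;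
`even_zero` in `CHM/AlmostAll.lean`.  (2) `mult_old` with `m = 0` (`D.twist`), `roots_frobM`, (1).
(3), (4): `new` and `old` are inverse to each other and `dual`, `tensor`, `lef` are the same up to
definitional equality (the diagonal of the point is `graph (𝟙 _)`); the trace is `CHM.Mot.trace_eq`.
(5), (6): the fields `sum`, `res`. -/
def S_YCH : Prop :=
  ∀ (V : Type u) [Category.{v} V] [CartesianMonoidalCategory V] (T : ChowTheory.{v, u, w} V)
    (K : Cohomology.{v, u, w, x} T) (D : AbelianMotives K),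
    (∀ Y : CHM.Mot T.toOld, D.Ab (Mot.new Y) →
      K.toOld.frobenius.even Y = 0 ∧
      (∀ z : ℂ, (K.toOld.frobenius.odd Y).count z = K.mult (Mot.new Y) z) ∧
      Nonempty (Yᘁ ⊗ CHM.Mot.lef T.toOld ≅ Y) ∧
      (∀ e : Y ⊗ Y ⟶ Y ⊗ Y, e ≫ e = e → _root_.Mot.trace e = 0 → e = 0) ∧
      (∀ N : ℕ, 1 ≤ N → D.Ab (Mot.new (CHM.Mot.h T.toOld (D.E N) 0 ⊗ Y)))) ∧
    ∀ Y Z : CHM.Mot T.toOld, D.Ab (Mot.new Y) → D.Ab (Mot.new Z) →
      ∃ (U : CHM.Mot T.toOld) (i : Y ⟶ U) (p : U ⟶ Y) (j : Z ⟶ U) (r : U ⟶ Z),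
        D.Ab (Mot.new U) ∧ i ≫ p = 𝟙 Y ∧ j ≫ r = 𝟙 Z ∧ p ≫ i + r ≫ j = 𝟙 U

/-- TCH. The motives `h¹(A)`, second part: Tate's theorem.
PROOF. `num`: `MotP.NumTrivial f` iff `T.NumTrivial f.val` (`CHM.Mot.mem_numHom`, `CHS.Mot.numHom_iff`, see
`zero_iff` in `MotE/Fin.lean`), so `CHM.Mot.numHom Y Y = ⊥` and the rank of the quotient is that of `Y ⟶ Y`.
`tate`: `CHS.Cohomology.tateFormula_iff`, `CHM.Cohomology.TateFormula`: the rank of `Y ⟶ Y` is the natural number
`∑ z ∈ (frobM Y).charpoly.roots.toFinset, multM Y z ^ 2`; `roots_frobM` and `even Y = 0` (hypothesis) show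
that the roots are `odd Y`, `multM Y z = count z` (`count_roots`). -/
def S_TCH : Prop :=
  ∀ (V : Type u) [Category.{v} V] [CartesianMonoidalCategory V] (T : ChowTheory.{v, u, w} V)
    (K : Cohomology.{v, u, w, x} T) (D : AbelianMotives K) (Y : CHM.Mot T.toOld),
    D.Ab (Mot.new Y) → K.toOld.frobenius.even Y = 0 →
    Module.finrank ℚ (Y ⟶ Y) = sqs (K.toOld.frobenius.odd Y) ∧
      (∀ f : Y ⟶ Y, MotP.NumTrivial f → f = 0) ∧ Module.Finite ℚ (Y ⟶ Y)

/-- SCH. The motives `h¹(A)`, third part: the Frobenius is semisimple.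
PROOF. `A = End Y` is a finite-dimensional `ℚ`-algebra, `F = component .. Y` is in its center (naturality).
The action on cohomology (`K.toOld.frobM`, the real part `pH(X)`; `act_onMot`, `onMot_pow` ...) is a ring
homomorphism `ρ` of `A` to the endomorphisms of a finite-dimensional complex vector space `H`; as
`evenPart = 0`, the trace formula (`CHM.Cohomology.trace_eq`) says `trace (f) = - trace (ρ f)`.  So
(*) `f` is zero if `ρ (f g)` is nilpotent for all `g` (`num`); in particular `ρ` is injective.  `P` = minimal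
polynomial of `F`.  (a) `P` is squarefree: if `R ^ 2 ∣ P`, `R` irreducible, then `x = (P / R) (F)` is central with
`x ^ 2 = 0`, so `(x g) ^ 2 = 0` for all `g`, `x = 0` by (*), contradiction.  (b) Every element of `odd Y`, i.e. every
eigenvalue of `ρ F`, is a root of `P`, as `P (ρ F) = 0`.  (c) Let `z ∈ ℂ` be a root of `P`, `R = minpoly ℚ z`, a
divisor of `P`.  If `ρ F` has no eigenvalue which is a root of `R`, then `R (ρ F)` is invertible and
`(P / R) (ρ F) = 0`, so `(P / R) (F) = 0`, contradiction.  So some conjugate `z'` of `z` is an eigenvalue.  The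
characteristic polynomial of `ρ F` has rational coefficients: the power sums of its roots are rational
(`W.scalar`, `trace_formula`), so every automorphism `σ` of `ℂ` preserves the power sums, hence the multiset
`odd Y` (Newton's identities or `Pool.Agent.WAF.t_MUL` in `WAF/MUL.lean`); choose `σ` with `σ z' = z`
(`IsAlgClosed.lift`; or: `minpoly` of an eigenvalue divides the characteristic polynomial over `ℚ`). -/
def S_SCH : Prop :=
  ∀ (V : Type u) [Category.{v} V] [CartesianMonoidalCategory V] (T : ChowTheory.{v, u, w} V)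
    (K : Cohomology.{v, u, w, x} T) (Y : CHM.Mot T.toOld),
    K.toOld.frobenius.even Y = 0 → Module.Finite ℚ (Y ⟶ Y) →
    (∀ f : Y ⟶ Y, MotP.NumTrivial f → f = 0) →
    ∃ P : ℚ[X], Squarefree P ∧ aeval (_root_.Mot.component K.toOld.frobenius.F Y) P = 0 ∧
      ∀ z : ℂ, aeval z P = 0 ↔ z ∈ K.toOld.frobenius.odd Y

/-- FCH. Translation of the conclusion.
PROOF. With `S' = D.Obj S`: `MotE.GenBy (clsOld S') M ↔ TJ2.Gen G M` (inductions; the Tate objects `h pt m` are
generated by `lef`: `CHM.Cohomology.gen_pt`; the unit is `tate 0`; `sum`: `TJ2.Gen` has sums and summands).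
`isAbelian_catBy`, `zero_iff`, `cycle_zero` of `MotE/Fin.lean`; equality of the two object properties
(`funext`, `propext`) identifies the subcategories (`Mot73.isAbelian_congr` or `subst`). -/
def S_FCH : Prop :=
  ∀ (V : Type u) [Category.{v} V] [CartesianMonoidalCategory V] (T : ChowTheory.{v, u, w} V)
    (K : Cohomology.{v, u, w, x} T) (D : AbelianMotives K) (S : Set ℤ[X])
    (G : CHM.Mot T.toOld → Prop),
    (∀ Y, G Y ↔ Y = CHM.Mot.lef T.toOld ∨ (∃ N, 1 ≤ N ∧ Y = CHM.Mot.h T.toOld (D.E N) 0) ∨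
      (D.Ab (Mot.new Y) ∧ ∀ z : ℂ, K.mult (Mot.new Y) z ≠ 0 → Pool.Agent.TJ3.Adm T.q S z)) →
    MotP.IsAbelian (Pool.Agent.TJ2.GenCat G) →
    (∀ (M N : CHM.Mot T.toOld) (f : M ⟶ N), Pool.Agent.TJ2.Gen G M → Pool.Agent.TJ2.Gen G N →
      MotP.NumTrivial f → f = 0) →
    IsAbelian (CatBy (D.Obj S)) ∧
      (∀ (M N : Mot T) (f : M ⟶ N), GenBy (D.Obj S) M → GenBy (D.Obj S) N →
        T.NumTrivial (Mot.Hom.val f) → f = 0) ∧
      ∀ X : V, GenBy (D.Obj S) (Mot.h T X) → ∀ a : T.CH X, T.NumTrivial a → a = 0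

end Pool.Agent.WAG
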