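import Pool.Agent.WAG.St
import Pool.Agent.WAG.StC
import Pool.Agent.WAF.Main1

/-!
# Assembly of block WAG (MP_cb388a_ag, MP_6c4da4_ag; helper51), with the modules as hypotheses
-/

open CategoryTheory MonoidalCategory Limits Polynomial

universe v u w x

namespace Pool.Agent.WAG

open Pool.Agent.TJ2 Pool.Agent.TJ3 Pool.Agent.TJ4 Pool.Agent.WAV Pool.Agent.WAE Pool.Agent.WAF
  MotP.GGap

noncomputable section

section

variable {C : Type u} [Category.{v} C] [Preadditive C] [Linear ℚ C] [MonoidalCategory C]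
  [SymmetricCategory C] [MonoidalPreadditive C] [MonoidalLinear ℚ C] [RightRigidCategory C]
  {W : MotP.Frobenius C} {q : ℕ}

/-- the structure of block WAF -/
def AVE.toAVT (hETN : S_ETN.{v, u}) (hSYM : S_SYM.{v, u}) (hNPS : S_NPS) (D : AVE W q)
    (hq : 2 ≤ q) : AVT W q where
  T := D.T
  T' := D.T'
  L := D.L
  Ab := D.Ab
  unitT := D.unitT
  frobT := D.frobT
  oneL := D.oneL
  frobL := D.frobL
  evenL := D.evenL
  oddL := D.oddL
  sumL := D.sumL
  dualL := D.dualL
  tensL := D.tensL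
  even := D.even
  semi := D.semi
  pol := D.pol
  kim := D.kim
  tate Y hY := by
    obtain ⟨h0, h1⟩ := hSYM C W q D hq Y hY
    rw [(hETN C D.T Y (D.pol Y hY) (D.num Y hY)).1, D.tate Y hY,
      hNPS q (W.odd Y) (by omega) h0 h1]
  num Y hY := (hETN C D.T Y (D.pol Y hY) (D.num Y hY)).2
  sum := D.sum
  res := D.res

end

section

variable {V : Type u} [Category.{v} V] [CartesianMonoidalCategory V]
  {T : CHS.ChowTheory.{v, u, w} V} {K : CHS.Cohomology.{v, u, w, x} T}

/-- the structure `AVE` on the category of Chow motives -/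
def toAVE (hE : S_ECH.{v, u, w, x}) (hY : S_YCH.{v, u, w, x}) (hT : S_TCH.{v, u, w, x})
    (hS : S_SCH.{v, u, w, x}) (D : CHS.AbelianMotives K) : AVE K.toOld.frobenius T.q where
  T := CHM.Mot.lef T.toOld
  T' := CHM.Mot.h T.toOld (𝟙_ V) 1
  L N := CHM.Mot.h T.toOld (D.E N) 0
  Ab Y := D.Ab (CHS.Mot.new Y)
  unitT := CHM.Mot.twist_inv (by norm_num)
  frobT := CHM.Cohomology.frob_lef
  oneL := (hE V T K D).1
  frobL N hN := ((hE V T K D).2 N hN).1
  evenL N hN := ((hE V T K D).2 N hN).2.1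
  oddL N hN := ((hE V T K D).2 N hN).2.2.1
  sumL N hN := ((hE V T K D).2 N hN).2.2.2.1
  dualL N hN := ((hE V T K D).2 N hN).2.2.2.2.1
  tensL N M hN hM := ((hE V T K D).2 N hN).2.2.2.2.2 M hM
  even Y hA := ((hY V T K D).1 Y hA).1
  semi Y hA := by
    obtain ⟨h1, h2, h3⟩ := hT V T K D Y hA ((hY V T K D).1 Y hA).1
    exact hS V T K Y ((hY V T K D).1 Y hA).1 h3 h2
  pol Y hA := ((hY V T K D).1 Y hA).2.2.1
  kim Y hA := ((hY V T K D).1 Y hA).2.2.2.1
  tate Y hA := (hT V T K D Y hA ((hY V T K D).1 Y hA).1).1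
  num Y hA := (hT V T K D Y hA ((hY V T K D).1 Y hA).1).2.1
  sum := (hY V T K D).2
  res Y hA N hN := ((hY V T K D).1 Y hA).2.2.2.2 N hN

end

end

end Pool.Agent.WAG
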