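import Pool.Agent.WAG.AbDefs
import Pool.Agent.TJ4.St

/-!
# The Chow motives of finite fields and abelian varieties: the generators for a set of Weil polynomials
(MP_6c4da4_ag, helper51)
-/

set_option autoImplicit false

open CategoryTheory MonoidalCategory CartesianMonoidalCategory Limits Polynomial

universe v u w x

namespace CHS

variable {V : Type u} [Category.{v} V] [CartesianMonoidalCategory V]

/-- For a set `S` of real Weil polynomials: the motives `h(E N)`, and the `Y` in `Ab` all of whose
Frobenius eigenvalues are, up to roots of unity, `√q` or roots of `weil q h`, `h ∈ S`. -/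
def AbelianMotives.Obj {T : ChowTheory.{v, u, w} V} {K : Cohomology.{v, u, w, x} T}
    (D : AbelianMotives K) (S : Set ℤ[X]) (Y : Mot T) : Prop :=
  D.Gn (Pool.Agent.TJ3.Adm T.q S) Y

end CHS
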