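import Pool.Agent.WAG.StC

/-!
# Module ECH of block WAG: the motives of finite fields (MP_6c4da4_ag)
-/

set_option autoImplicit false

open CategoryTheory MonoidalCategory CartesianMonoidalCategory Limits Polynomial

universe v u w x

namespace Pool.Agent.WAG

open CHS

namespace ECH

section Old

variable {V : Type u} [Category.{v} V] [CartesianMonoidalCategory V]
  {T : CHM.ChowTheory.{v, u, w} V} {R : CHM.FrobeniusMaps T}
  (K : CHM.Cohomology.{v, u, w, x} T R)

theorem odd_zero {M : CHM.Mot T} (h : K.oddPart M = ⊥) : K.frobenius.odd M = 0 := by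
  rw [← Multiset.card_eq_zero]
  change Multiset.card (K.onOdd (R.onMot M)).charpoly.roots = 0
  rw [← (IsAlgClosed.splits _).natDegree_eq_card_roots, LinearMap.charpoly_natDegree, h,
    finrank_bot]

theorem frobM_pow (M : CHM.Mot T) (n : ℕ) (x : K.real M) :
    (((K.frobM M ^ n) x : K.real M) : K.H M.X) =
      K.act (_root_.Mot.component R.F M ^ n : End M).1 x := by
  induction n with
  | zero => exact (K.mem_real.1 x.2).symm
  | succ n ih =>
    rw [pow_succ', pow_succ']
    change K.act (R.onMot M).1 (((K.frobM M ^ n) x : K.real M) : K.H M.X) =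
      K.act (T.cp (_root_.Mot.component R.F M ^ n : End M).1 (R.onMot M).1) x
    rw [ih, K.act_cp]

theorem multM_zero (M : CHM.Mot T) (N : ℕ) (hF : _root_.Mot.component R.F M ^ N = 1) (z : ℂ)
    (hz : z ^ N ≠ 1) : K.multM M z = 0 := by
  by_contra hne
  unfold CHM.Cohomology.multM at hne
  have h0 : (K.frobM M).charpoly ≠ 0 := (LinearMap.charpoly_monic _).ne_zero
  have h1 : (K.frobM M).charpoly.IsRoot z :=
    (Polynomial.rootMultiplicity_pos h0).1 (Nat.pos_of_ne_zero hne)
  rw [← Module.End.hasEigenvalue_iff_isRoot_charpoly] at h1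
  obtain ⟨y, hy⟩ := h1.exists_hasEigenvector
  have h2 : (K.frobM M ^ N) y = z ^ N • y := by
    exact hy.pow_apply N
  have h3 := frobM_pow K M N y
  rw [hF] at h3
  have h4 : K.act (1 : End M).1 (y : K.H M.X) = y := K.mem_real.1 y.2
  rw [h4] at h3
  have h5 : (K.frobM M ^ N) y = y := Subtype.ext h3
  rw [h5] at h2
  have h6 : (z ^ N - 1) • y = 0 := by rw [sub_smul, one_smul, ← h2, sub_self]
  rcases smul_eq_zero.1 h6 with h7 | h7
  · exact hz (sub_eq_zero.1 h7)
  · exact hy.2 h7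

end Old

theorem count_roots (N : ℕ) (hN : 1 ≤ N) (z : ℂ) :
    ((X ^ N - 1 : ℚ[X]).aroots ℂ).count z = if z ^ N = 1 then 1 else 0 := by
  have h1 : (X ^ N - 1 : ℚ[X]).aroots ℂ = nthRoots N (1 : ℂ) := by
    rw [aroots_def, nthRoots]
    congr 1
    simp
  rw [h1]
  have h2 : (nthRoots N (1 : ℂ)).Nodup :=
    (Complex.isPrimitiveRoot_exp N (by omega)).nthRoots_one_nodup
  split_ifs with h
  · exact Multiset.count_eq_one_of_mem h2 ((mem_nthRoots hN).2 h)
  · exact Multiset.count_eq_zero.2 fun h3 => h ((mem_nthRoots hN).1 h3)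

theorem sum_iso {C : Type u} [Category.{v} C] [Preadditive C] {A B E : C} (e : A ≅ B) {n : ℕ}
    (i : Fin n → (B ⟶ E)) (p : Fin n → (E ⟶ B)) (h : ∑ k, i k ≫ p k = 𝟙 B) :
    ∑ k, (e.hom ≫ i k) ≫ (p k ≫ e.inv) = 𝟙 A := by
  have h4 : ∀ k ∈ (Finset.univ : Finset (Fin n)),
      (e.hom ≫ i k) ≫ (p k ≫ e.inv) = e.hom ≫ (i k ≫ p k) ≫ e.inv :=
    fun k _ => by simp only [Category.assoc]
  rw [Finset.sum_congr rfl h4, ← Preadditive.comp_sum, ← Preadditive.sum_comp, h, Category.id_comp,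
    Iso.hom_inv_id]

section New

variable {V : Type u} [Category.{v} V] [CartesianMonoidalCategory V] {T : ChowTheory.{v, u, w} V}

theorem frob_val (X : V) :
    (T.frob.onMot (CHM.Mot.h T.toOld X 0)).1 = T.toOld.gr' (T.Fr X) := by
  rw [CHM.FrobeniusMaps.onMot_val]
  change (T.frob.q : ℚ) ^ (-0 : ℤ) • T.toOld.cp (T.toOld.diag X) (T.toOld.gr' (T.Fr X)) = _
  rw [T.toOld.diag_cp, neg_zero, zpow_zero, one_smul]

theorem pow_val (X : V) (n : ℕ) :
    (_root_.Mot.component T.frob.F (CHM.Mot.h T.toOld X 0) ^ n : End _).1 =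
      T.toOld.gr' (T.frPow X n) := by
  induction n with
  | zero => exact (T.toOld.gr'_id X).symm
  | succ n ih =>
    rw [pow_succ']
    change T.toOld.cp (_root_.Mot.component T.frob.F (CHM.Mot.h T.toOld X 0) ^ n : End _).1
      (T.frob.onMot (CHM.Mot.h T.toOld X 0)).1 = _
    rw [ih, frob_val, T.toOld.gr'_comp]
    congr 1
    exact (T.natural (T.frPow X n)).symm

theorem sum_val (X : V) (n : ℕ) :
    (∑ i ∈ Finset.range n,
      _root_.Mot.component T.frob.F (CHM.Mot.h T.toOld X 0) ^ i : End _).1 =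
      ∑ i ∈ Finset.range n, T.graph (T.frPow X i) := by
  induction n with
  | zero => rfl
  | succ n ih =>
    rw [Finset.sum_range_succ, Finset.sum_range_succ]
    refine (CHM.Mot.add_val _ _).trans ?_
    exact congrArg₂ (· + ·) ih (pow_val X n)

end New

end ECH

open ECH in
theorem t_ECH : S_ECH.{v, u, w, x} := by
  intro V _ _ T K D
  refine ⟨?_, ?_⟩
  · obtain ⟨e⟩ := D.point
    exact ⟨CHM.Mot.hIso (T := T.toOld) (X := D.E 1) (Y := 𝟙_ V) e.symm rfl⟩
  intro N hN
  have hF : _root_.Mot.component K.toOld.frobenius.F (CHM.Mot.h T.toOld (D.E N) 0) ^ N = 1 := by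
    apply Subtype.ext
    refine (pow_val (D.E N) N).trans ?_
    rw [D.frobE N hN]
    exact T.toOld.gr'_id _
  have hgr : ∀ x : K.H (D.E N), x ∈ K.gr (D.E N) 0 := by
    intro x
    obtain ⟨s, y, hy, hx⟩ := K.toOld.exists_sum (D.E N) x
    rw [hx]
    refine Submodule.sum_mem _ fun i _ => ?_
    by_cases hi : i = 0
    · rw [← hi]
      exact hy i
    · have h0 : y i = 0 := D.degE N hN i (y i) (hy i) hi
      rw [h0]
      exact zero_mem _
  have hodd : K.toOld.frobenius.odd (CHM.Mot.h T.toOld (D.E N) 0) = 0 := by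
    apply odd_zero
    rw [eq_bot_iff]
    intro x hx
    rw [Submodule.mem_bot]
    have h1 := (K.toOld.mem_oddPart.1 hx).2
    have h2 := K.toOld.sgn_apply (D.E N) 0 x (hgr x)
    have h3 : x = -x := by
      rw [← h1]
      refine Eq.trans ?_ h2.symm
      rw [zpow_zero, one_smul]
    have h4 : (2 : ℂ) • x = 0 := by
      rw [two_smul]
      nth_rewrite 2 [h3]
      exact add_neg_cancel x
    exact (smul_eq_zero.1 h4).resolve_left two_ne_zero
  have heven : K.toOld.frobenius.even (CHM.Mot.h T.toOld (D.E N) 0) =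
      (X ^ N - 1 : ℚ[X]).aroots ℂ := by
    ext z
    have h1 := K.toOld.roots_frobM (CHM.Mot.h T.toOld (D.E N) 0)
    rw [hodd, add_zero] at h1
    rw [← h1, count_roots N hN, Polynomial.count_roots]
    change K.toOld.multM (CHM.Mot.h T.toOld (D.E N) 0) z = _
    split_ifs with hz
    · have h2 := D.rootE N hN z hz
      rw [K.mult_old] at h2
      have h3 : (T.q : ℂ) ^ (-(Mot.h T (D.E N)).m) * z = z := by
        change (T.q : ℂ) ^ (-0 : ℤ) * z = z
        rw [neg_zero, zpow_zero, one_mul]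
      rw [h3] at h2
      exact h2
    · exact multM_zero K.toOld _ N hF z hz
  refine ⟨hF, heven, hodd, ?_, ?_, ?_⟩
  · refine ⟨CHM.Mot.cosecEquiv T.toOld (D.E N) 0 ⟨1, ?_⟩,
      CHM.Mot.secEquiv T.toOld (D.E N) 0 ⟨1, T.toOld.one_mem _⟩, ?_⟩
    · have h1 := T.toOld.one_mem (D.E N)
      refine T.toOld.gr_congr ?_ h1
      change 0 = T.dim (D.E N) - 0
      rw [D.dimE N hN, sub_zero]
    · apply Subtype.ext
      refine (sum_val (D.E N) N).trans ?_
      rw [D.sumE N hN]
      change _ = T.toOld.cp (T.toOld.pull (fst (D.E N) (𝟙_ V)) 1)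
        (T.toOld.pull (snd (𝟙_ V) (D.E N)) 1)
      rw [T.toOld.pt_cp, map_one, map_one, mul_one]
      rfl
  · refine ⟨eqToIso ?_⟩
    refine CHM.Mot.mk_congr (T.toOld.tr_diag _) ?_ _ _ _ _
    change T.dim (D.E N) - 0 = 0
    rw [D.dimE N hN, sub_zero]
  · intro M hM
    obtain ⟨n, i, p, hs⟩ := D.prodE N M hN hM
    let e : CHM.Mot.h T.toOld (D.E N) 0 ⊗ CHM.Mot.h T.toOld (D.E M) 0 ≅
        CHM.Mot.h T.toOld (D.E N ⊗ D.E M) 0 :=
      eqToIso (CHM.Mot.h_tensor (D.E N) (D.E M) 0 0) ≪≫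
        CHM.Mot.hIso (T := T.toOld) (Iso.refl (D.E N ⊗ D.E M)) (by ring)
    have h1 : ∑ k, ((oldFunctor T).map (i k) ≫ (oldFunctor T).map (p k)) =
        𝟙 (CHM.Mot.h T.toOld (D.E N ⊗ D.E M) 0) := by
      have h2 := congrArg (oldFunctor T).map hs
      rw [Functor.map_sum, (oldFunctor T).map_id] at h2
      refine Eq.trans ?_ h2
      exact Finset.sum_congr rfl fun k _ => ((oldFunctor T).map_comp _ _).symm
    exact ⟨n, fun k => e.hom ≫ (oldFunctor T).map (i k), fun k => (oldFunctor T).map (p k) ≫ e.inv,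
      sum_iso e (fun k => (oldFunctor T).map (i k)) (fun k => (oldFunctor T).map (p k)) h1⟩

end Pool.Agent.WAG
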