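import Pool.Agent.WAG.St
import Pool.Agent.MotP.Van

/-!
# From `End Y` to `Hom (T, Y ⊗ Y)` (module ETN of block WAG)
-/

open CategoryTheory MonoidalCategory BraidedCategory Limits

universe v u

namespace Pool.Agent.WAG

open Mot (ev)

noncomputable section

namespace ETN

variable {C : Type u} [Category.{v} C] [Preadditive C] [Linear ℚ C] [MonoidalCategory C]
  [SymmetricCategory C] [MonoidalPreadditive C] [MonoidalLinear ℚ C] [RightRigidCategory C]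

/-- the trace of `A ▷ X ≫ h` over the second factor is the composite of `A` and a morphism -/
lemma ptr_left' {P Q X : C} (A : P ⟶ Q) (h : Q ⊗ X ⟶ P ⊗ X) :
    MotP.ptr (A ▷ X ≫ h) = A ≫ (ρ_ Q).inv ≫ Q ◁ η_ X Xᘁ ≫ (α_ Q X Xᘁ).inv ≫ h ▷ Xᘁ ≫
      (α_ P X Xᘁ).hom ≫ P ◁ ev X Xᘁ ≫ (ρ_ P).hom := by
  unfold MotP.ptr
  rw [comp_whiskerRight, Category.assoc, ← associator_inv_naturality_left_assoc,
    whisker_exchange_assoc, rightUnitor_inv_naturality_assoc]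

/-- whiskering preserves the property that all composites vanish, in the form of traces -/
lemma tr_whisker {S T Z : C} (s : T ⟶ S) (hs : ∀ r : S ⟶ T, s ≫ r = 0)
    (k : Z ⊗ S ⟶ Z ⊗ T) : MotP.tr (Z ⊗ T) (Z ◁ s ≫ k) = 0 := by
  have h1 : Z ◁ s = (β_ Z T).hom ≫ s ▷ Z ≫ (β_ Z S).inv := by
    rw [← BraidedCategory.braiding_naturality_right_assoc, Iso.hom_inv_id, Category.comp_id]
  rw [h1, Category.assoc, Category.assoc, MotP.tr_comm, Category.assoc, Category.assoc, MotP.tr_ptr,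
    ptr_left', hs, MotP.tr_zero]

/-- `End Y` and `Hom (T, Y ⊗ Y)` are isomorphic if `Yᘁ ⊗ T ≅ Y` -/
def eqv (T Y : C) (φ : Yᘁ ⊗ T ≅ Y) : (Y ⟶ Y) ≃ₗ[ℚ] (T ⟶ Y ⊗ Y) where
  toFun f := tensorLeftHomEquiv T Y Yᘁ Y (φ.hom ≫ f)
  invFun s := φ.inv ≫ (tensorLeftHomEquiv T Y Yᘁ Y).symm s
  left_inv f := by
    simp
  right_inv s := by
    simp
  map_add' f g := by
    change (λ_ _).inv ≫ η_ _ _ ▷ _ ≫ (α_ _ _ _).hom ≫ Y ◁ (φ.hom ≫ (f + g)) =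
      (λ_ _).inv ≫ η_ _ _ ▷ _ ≫ (α_ _ _ _).hom ≫ Y ◁ (φ.hom ≫ f) +
        (λ_ _).inv ≫ η_ _ _ ▷ _ ≫ (α_ _ _ _).hom ≫ Y ◁ (φ.hom ≫ g)
    rw [Preadditive.comp_add, MonoidalPreadditive.whiskerLeft_add]
    simp only [Preadditive.comp_add]
  map_smul' r f := by
    change (λ_ _).inv ≫ η_ _ _ ▷ _ ≫ (α_ _ _ _).hom ≫ Y ◁ (φ.hom ≫ (r • f)) =
      r • ((λ_ _).inv ≫ η_ _ _ ▷ _ ≫ (α_ _ _ _).hom ≫ Y ◁ (φ.hom ≫ f))
    rw [Linear.comp_smul, MonoidalLinear.whiskerLeft_smul]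
    simp only [Linear.comp_smul]

end ETN

open ETN in
/-- ETN. -/
theorem t_ETN : S_ETN := by
  intro C _ _ _ _ _ _ _ _ T Y hφ hnum
  obtain ⟨φ⟩ := hφ
  refine ⟨(eqv T Y φ).finrank_eq.symm, fun s hs => ?_⟩
  have hf : (eqv T Y φ).symm s = 0 := by
    apply hnum
    intro g
    change MotP.tr Y ((φ.inv ≫ Yᘁ ◁ s ≫ (α_ _ _ _).inv ≫ ε_ _ _ ▷ _ ≫ (λ_ _).hom) ≫ g) = 0
    rw [Category.assoc, Category.assoc, MotP.tr_comm, Category.assoc]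
    exact tr_whisker s hs _
  have h2 := (eqv T Y φ).apply_symm_apply s
  rw [hf, map_zero] at h2
  exact h2.symm

end

end Pool.Agent.WAG
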