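import Pool.Agent.WAG.StC

/-!
# FCG: translation of the conclusion, general form (adapted from FCH.lean by helper80)
-/

set_option autoImplicit false

open CategoryTheory MonoidalCategory CartesianMonoidalCategory Limits Polynomial

universe v u w x

namespace Pool.Agent.WAG

open CHS

namespace FCG

theorem isAbelian_transport {C : Type*} [Category C] [Preadditive C] {P Q : ObjectProperty C}
    (h : P = Q) (hP : MotP.IsAbelian P.FullSubcategory) :
    MotP.IsAbelian Q.FullSubcategory := by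
  subst h
  exact hP

variable {V : Type u} [Category.{v} V] [CartesianMonoidalCategory V] {T : ChowTheory.{v, u, w} V}

/-- The generators of the two kinds generate the same motives. -/
theorem genBy_iff_gen (S' : Mot T → Prop) (G : CHM.Mot T.toOld → Prop)
    (h1 : ∀ Y, clsOld S' Y → Pool.Agent.TJ2.Gen G Y)
    (h2 : ∀ Y, G Y → MotE.GenBy (clsOld S') Y) (M : CHM.Mot T.toOld) :
    MotE.GenBy (clsOld S') M ↔ Pool.Agent.TJ2.Gen G M := by
  constructor
  · intro h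
    induction h with
    | of M h => exact h1 M h
    | unit => exact Pool.Agent.TJ2.Gen.unit
    | tensor M N _ _ hM hN => exact Pool.Agent.TJ2.Gen.tensor _ _ hM hN
    | dual M _ hM => exact Pool.Agent.TJ2.Gen.dual _ hM
    | sum M N L i p j q e1 e2 e3 _ _ hM hN =>
      exact Pool.Agent.TJ2.Gen.sum _ _ _ i p j q e1 e2 e3 hM hN
    | summand M N i p e _ hM => exact Pool.Agent.TJ2.Gen.summand _ _ i p e hM
  · intro h
    induction h with
    | of M h => exact h2 M h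
    | unit => exact MotE.GenBy.unit
    | tensor M N _ _ hM hN => exact MotE.GenBy.tensor _ _ hM hN
    | dual M _ hM => exact MotE.GenBy.dual _ hM
    | sum M N L i p j q e1 e2 e3 _ _ hM hN =>
      exact MotE.GenBy.sum _ _ _ i p j q e1 e2 e3 hM hN
    | summand M N i p e _ hM => exact MotE.GenBy.summand _ _ i p e hM

end FCG

open FCG

/-- the generated motives of the library `CHS` are those of `TJ2.Gen` -/
theorem gen_iff {V : Type u} [Category.{v} V] [CartesianMonoidalCategory V]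
    {T : ChowTheory.{v, u, w} V} {K : Cohomology.{v, u, w, x} T} (D : AbelianMotives K)
    (Λ : ℂ → Prop) (G : CHM.Mot T.toOld → Prop)
    (hG : ∀ Y, G Y ↔ Y = CHM.Mot.lef T.toOld ∨ (∃ N, 1 ≤ N ∧ Y = CHM.Mot.h T.toOld (D.E N) 0) ∨
      (D.Ab (Mot.new Y) ∧ ∀ z : ℂ, K.mult (Mot.new Y) z ≠ 0 → Λ z)) (M : CHM.Mot T.toOld) :
    MotE.GenBy (clsOld (D.Gn Λ)) M ↔ Pool.Agent.TJ2.Gen G M := by
  have hG0 : Pool.Agent.TJ2.Gen G (CHM.Mot.lef T.toOld) :=
    Pool.Agent.TJ2.Gen.of _ ((hG _).2 (Or.inl rfl))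
  refine genBy_iff_gen (D.Gn Λ) G ?_ ?_ M
  · intro Y hY
    rcases hY with hY | ⟨m, rfl⟩
    · rcases hY with ⟨N, hN, hYN⟩ | hY
      · have hY2 : Y = CHM.Mot.h T.toOld (D.E N) 0 := congrArg Mot.old hYN
        exact Pool.Agent.TJ2.Gen.of _ ((hG _).2 (Or.inr (Or.inl ⟨N, hN, hY2⟩)))
      · exact Pool.Agent.TJ2.Gen.of _ ((hG _).2 (Or.inr (Or.inr hY)))
    · exact CHM.Cohomology.gen_pt hG0 m
  · intro Y hY
    rcases (hG Y).1 hY with hY | ⟨N, hN, hYN⟩ | hY
    · exact MotE.GenBy.of _ (Or.inr ⟨-1, hY⟩)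
    · refine MotE.GenBy.of _ (Or.inl (Or.inl ⟨N, hN, ?_⟩))
      rw [hYN]
      rfl
    · exact MotE.GenBy.of _ (Or.inl (Or.inr hY))

theorem t_FCG {V : Type u} [Category.{v} V] [CartesianMonoidalCategory V]
    {T : ChowTheory.{v, u, w} V} {K : Cohomology.{v, u, w, x} T} (D : AbelianMotives K)
    (Λ : ℂ → Prop) (G : CHM.Mot T.toOld → Prop)
    (hG : ∀ Y, G Y ↔ Y = CHM.Mot.lef T.toOld ∨ (∃ N, 1 ≤ N ∧ Y = CHM.Mot.h T.toOld (D.E N) 0) ∨
      (D.Ab (Mot.new Y) ∧ ∀ z : ℂ, K.mult (Mot.new Y) z ≠ 0 → Λ z))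
    (hab : MotP.IsAbelian (Pool.Agent.TJ2.GenCat G))
    (hz : ∀ (M N : CHM.Mot T.toOld) (f : M ⟶ N), Pool.Agent.TJ2.Gen G M →
      Pool.Agent.TJ2.Gen G N → MotP.NumTrivial f → f = 0) :
    IsAbelian (CatBy (D.Gn Λ)) ∧
      (∀ (M N : Mot T) (f : M ⟶ N), GenBy (D.Gn Λ) M → GenBy (D.Gn Λ) N →
        T.NumTrivial (Mot.Hom.val f) → f = 0) ∧
      ∀ X : V, GenBy (D.Gn Λ) (Mot.h T X) → ∀ a : T.CH X, T.NumTrivial a → a = 0 := by
  have key := gen_iff D Λ G hG
  have hz' : ∀ (M N : Mot T) (f : M ⟶ N), GenBy (D.Gn Λ) M → GenBy (D.Gn Λ) N →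
      T.NumTrivial (Mot.Hom.val f) → f = 0 :=
    (zero_iff (D.Gn Λ)).2 fun M N f hM hN hf => hz M N f ((key M).1 hM) ((key N).1 hN) hf
  refine ⟨?_, hz', fun X hX a ha => cycle_zero (D.Gn Λ) hz' X hX a ha⟩
  rw [isAbelian_catBy (D.Gn Λ)]
  have hE : (fun X : CHM.Mot T.toOld => Pool.Agent.TJ2.Gen G X) =
      MotE.PG (clsOld (D.Gn Λ)) := funext fun X => propext (key X).symm
  exact isAbelian_transport hE hab

end Pool.Agent.WAG
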