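import Pool.Agent.WAG.StC

/-!
# FCH: translation of the conclusion (module of block WAG, helper80)
-/

set_option autoImplicit false

open CategoryTheory MonoidalCategory CartesianMonoidalCategory Limits Polynomial

universe v u w x

namespace Pool.Agent.WAG

open CHS

namespace FCH

theorem isAbelian_transport {C : Type*} [Category C] [Preadditive C] {P Q : ObjectProperty C}
    (h : P = Q) (hP : MotP.IsAbelian P.FullSubcategory) :
    MotP.IsAbelian Q.FullSubcategory := by
  subst h
  exact hP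

variable {V : Type u} [Category.{v} V] [CartesianMonoidalCategory V] {T : ChowTheory.{v, u, w} V}

/-- The generators of the two kinds generate the same motives. -/
theorem genBy_iff_gen (S' : Mot T → Prop) (G : CHM.Mot T.toOld → Prop)
    (h1 : ∀ Y, clsOld S' Y → Pool.Agent.TJ2.Gen G Y)
    (h2 : ∀ Y, G Y → MotE.GenBy (clsOld S') Y) (M : CHM.Mot T.toOld) :
    MotE.GenBy (clsOld S') M ↔ Pool.Agent.TJ2.Gen G M := by
  constructor
  · intro h
    induction h with
    | of M h => exact h1 M h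
    | unit => exact Pool.Agent.TJ2.Gen.unit
    | tensor M N _ _ hM hN => exact Pool.Agent.TJ2.Gen.tensor _ _ hM hN
    | dual M _ hM => exact Pool.Agent.TJ2.Gen.dual _ hM
    | sum M N L i p j q e1 e2 e3 _ _ hM hN =>
      exact Pool.Agent.TJ2.Gen.sum _ _ _ i p j q e1 e2 e3 hM hN
    | summand M N i p e _ hM => exact Pool.Agent.TJ2.Gen.summand _ _ i p e hM
  · intro h
    induction h with
    | of M h => exact h2 M h
    | unit => exact MotE.GenBy.unit
    | tensor M N _ _ hM hN => exact MotE.GenBy.tensor _ _ hM hN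
    | dual M _ hM => exact MotE.GenBy.dual _ hM
    | sum M N L i p j q e1 e2 e3 _ _ hM hN =>
      exact MotE.GenBy.sum _ _ _ i p j q e1 e2 e3 hM hN
    | summand M N i p e _ hM => exact MotE.GenBy.summand _ _ i p e hM

end FCH

open FCH

theorem t_FCH : S_FCH.{v, u, w, x} := by
  intro V _ _ T K D S G hG hab hz
  have hG0 : Pool.Agent.TJ2.Gen G (CHM.Mot.lef T.toOld) :=
    Pool.Agent.TJ2.Gen.of _ ((hG _).2 (Or.inl rfl))
  have key : ∀ M : CHM.Mot T.toOld,
      MotE.GenBy (clsOld (D.Obj S)) M ↔ Pool.Agent.TJ2.Gen G M := by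
    refine genBy_iff_gen (D.Obj S) G ?_ ?_
    · intro Y hY
      rcases hY with hY | ⟨m, rfl⟩
      · rcases hY with ⟨N, hN, hYN⟩ | hY
        · have hY2 : Y = CHM.Mot.h T.toOld (D.E N) 0 := congrArg Mot.old hYN
          exact Pool.Agent.TJ2.Gen.of _ ((hG _).2 (Or.inr (Or.inl ⟨N, hN, hY2⟩)))
        · exact Pool.Agent.TJ2.Gen.of _ ((hG _).2 (Or.inr (Or.inr hY)))
      · exact CHM.Cohomology.gen_pt hG0 m
    · intro Y hY
      rcases (hG Y).1 hY with hY | ⟨N, hN, hYN⟩ | hY
      · exact MotE.GenBy.of _ (Or.inr ⟨-1, hY⟩)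
      · refine MotE.GenBy.of _ (Or.inl (Or.inl ⟨N, hN, ?_⟩))
        rw [hYN]
        rfl
      · exact MotE.GenBy.of _ (Or.inl (Or.inr hY))
  have hz' : ∀ (M N : Mot T) (f : M ⟶ N), GenBy (D.Obj S) M → GenBy (D.Obj S) N →
      T.NumTrivial (Mot.Hom.val f) → f = 0 :=
    (zero_iff (D.Obj S)).2 fun M N f hM hN hf => hz M N f ((key M).1 hM) ((key N).1 hN) hf
  refine ⟨?_, hz', fun X hX a ha => cycle_zero (D.Obj S) hz' X hX a ha⟩
  rw [isAbelian_catBy (D.Obj S)]
  have hE : (fun X : CHM.Mot T.toOld => Pool.Agent.TJ2.Gen G X) =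
      MotE.PG (clsOld (D.Obj S)) := funext fun X => propext (key X).symm
  exact isAbelian_transport hE hab

end Pool.Agent.WAG
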