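import Pool.Agent.WAG.WDefs
import Pool.Agent.HL.WlConv
import Pool.Agent.WAV.Lef
import Pool.Agent.CHM.AlmostAll

/-!
# LCH: the Lefschetz motive and Weil-etale cohomology (MP_cb388a_ag, helper51)
-/

set_option autoImplicit false

open CategoryTheory MonoidalCategory CartesianMonoidalCategory Limits
open WEt (Ab)

universe v u w x

noncomputable section

namespace CHM.Mot

variable {V : Type u} [Category.{v} V] [CartesianMonoidalCategory V] (T : ChowTheory.{v, u, w} V)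

/-- the powers of the Lefschetz motive -/
theorem T_lef (n : ℕ) : Nonempty (_root_.Mot.T (lef T) n ≅ h T (𝟙_ V) (-(n : ℤ))) := by
  induction n with
  | zero => exact ⟨hIso (T := T) (Iso.refl (𝟙_ V)) (by simp)⟩
  | succ n ih =>
    obtain ⟨φ⟩ := ih
    refine ⟨whiskerRightIso φ (lef T) ≪≫ eqToIso (h_tensor (𝟙_ V) (𝟙_ V) (-(n : ℤ)) (-1)) ≪≫
      hIso (λ_ (𝟙_ V)).symm (by push_cast; ring)⟩

/-- an endomorphism which factors through the point is an exterior product -/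
theorem factor {E : V} {n : ℤ} (r : h T E 0 ⟶ h T (𝟙_ V) (-n)) (s : h T (𝟙_ V) (-n) ⟶ h T E 0) :
    ∃ a ∈ T.gr E n, ∃ b ∈ T.gr E (T.dim E - n),
      (r ≫ s : h T E 0 ⟶ h T E 0).1 = T.pull (fst E E) b * T.pull (snd E E) a := by
  have hr : r.1 ∈ T.gr (E ⊗ 𝟙_ V) (T.dim E - n) := by
    have h := mem_hom_h.1 r.2
    have e : T.dim E + -n - 0 = T.dim E - n := by ring
    rwa [e] at h
  have hs : s.1 ∈ T.gr (𝟙_ V ⊗ E) n := by
    have h := mem_hom_h.1 s.2
    have e : T.dim (𝟙_ V) + 0 - -n = n := by rw [T.dim_unit]; ring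
    rwa [e] at h
  refine ⟨T.pull (lift (toUnit E) (𝟙 E)) s.1, T.pull_mem _ _ _ hs,
    T.pull (lift (𝟙 E) (toUnit E)) r.1, T.pull_mem _ _ _ hr, ?_⟩
  rw [← T.pt_cp]
  have h1 : T.pull (fst E (𝟙_ V)) (T.pull (lift (𝟙 E) (toUnit E)) r.1) = r.1 := by
    rw [← T.pull_comp]
    have e : fst E (𝟙_ V) ≫ lift (𝟙 E) (toUnit E) = 𝟙 _ := by ext; simp
    rw [e, T.pull_id]
  have h2 : T.pull (snd (𝟙_ V) E) (T.pull (lift (toUnit E) (𝟙 E)) s.1) = s.1 := by
    rw [← T.pull_comp]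
    have e : snd (𝟙_ V) E ≫ lift (toUnit E) (𝟙 E) = 𝟙 _ := by ext; simp
    rw [e, T.pull_id]
  rw [h1, h2]
  rfl

end CHM.Mot

namespace CHS

variable {V : Type} [Category.{0} V] [CartesianMonoidalCategory V] {Th : ChowTheory.{0, 0, 0} V}
  {K : Cohomology.{0, 0, 0, x} Th}

theorem ChowTheory.ext_smul (Th : ChowTheory.{0, 0, 0} V) {E : V} (k l : ℤ) (a b : Th.CH E) :
    Th.pull (fst E E) (l • b) * Th.pull (snd E E) (k • a) =
      (k * l) • (Th.pull (fst E E) b * Th.pull (snd E E) a) := by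
  have p1 : Th.pull (fst E E) (l • b) = l • Th.pull (fst E E) b :=
    map_zsmul (Th.toOld.pull (fst E E)) l b
  have p2 : Th.pull (snd E E) (k • a) = k • Th.pull (snd E E) a :=
    map_zsmul (Th.toOld.pull (snd E E)) k a
  rw [p1, p2, smul_mul_smul_comm, mul_comm l k]

theorem zsmul_val {T : CHM.ChowTheory.{0, 0, 0} V} {M N : CHM.Mot T} (k : ℤ) (f : M ⟶ N) :
    (k • f).1 = k • f.1 := by
  rw [← Int.cast_smul_eq_zsmul ℚ, CHM.Mot.smul_val, Int.cast_smul_eq_zsmul]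

/-- every cycle has a multiple which comes from Weil-etale cohomology -/
theorem WeilCoh.exists_mul (G : WeilCoh K) (X : G.U) (n : ℕ) (a : Th.CH (G.v X))
    (ha : a ∈ Th.cyc (G.v X) n) : ∃ (k : ℤ) (z : (G.coh X).Cyc n), k ≠ 0 ∧
      k • a ∈ Th.cyc (G.v X) n ∧
      (G.cls X n).cl (k • a) = Ab.one _ ((((G.coh X).W n).res _).ap z) := by
  obtain ⟨k, hk, x, hx⟩ := WeilCoh.exists_one ((G.cls X n).cl a)
  obtain ⟨N, hN, hNx⟩ := (G.cls X n).fix a ha k x hx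
  have h1 : (((G.coh X).W n).F (2 * (n : ℤ))).ap (N • x) = N • x := by
    rw [smul_sub, sub_eq_zero] at hNx
    exact (map_zsmul (show (((G.coh X).W n).C (2 * (n : ℤ))).T →+
      (((G.coh X).W n).C (2 * (n : ℤ))).T from ((G.coh X).W n).F (2 * (n : ℤ))) N x).trans hNx
  obtain ⟨z, hz⟩ : ∃ z : (G.coh X).Cyc n, (((G.coh X).W n).res _).ap z = N • x :=
    (((G.coh X).W n).res_image _ _).2 h1
  refine ⟨N * k, z, mul_ne_zero hN hk, ?_, ?_⟩
  · rw [← Int.cast_smul_eq_zsmul ℚ]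
    exact Submodule.smul_mem _ _ ha
  · rw [hz]
    have h3 : (G.cls X n).cl ((N * k) • a) = (N * k) • (G.cls X n).cl a :=
      map_zsmul (G.clHom X n) (N * k) a
    rw [h3, mul_smul]
    have h4 : Ab.one (((G.coh X).W n).C (2 * (n : ℤ))) (N • x) = N • Ab.one _ x :=
      TensorProduct.tmul_smul N (1 : ℚ) x
    exact (congrArg (fun t => N • t) hx).trans h4.symm

/-- LCH -/
theorem WeilProducts.lef (G : WeilProducts K) :
    Pool.Agent.WAV.Lef G.toWeilCoh.chow (CHM.Mot.lef Th.toOld) := by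
  intro X n m e r s
  obtain ⟨φ⟩ := CHM.Mot.T_lef Th.toOld n
  obtain ⟨a, ha, b, hb, hab⟩ := CHM.Mot.factor Th.toOld (E := G.v X) (n := (n : ℤ))
    (r ≫ φ.hom) (φ.inv ≫ s)
  have hrs : (r ≫ φ.hom) ≫ (φ.inv ≫ s) = r ≫ s := by simp
  have hab' : (show CHM.Mot.h Th.toOld (G.v X) 0 ⟶ CHM.Mot.h Th.toOld (G.v X) 0 from r ≫ s).1 =
      Th.toOld.pull (fst (G.v X) (G.v X)) b * Th.toOld.pull (snd (G.v X) (G.v X)) a :=
    (congrArg Subtype.val hrs).symm.trans hab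
  have hm : Th.dim (G.v X) - (n : ℤ) = (m : ℤ) := by
    rw [G.dim X]
    have e' : n + m = (G.coh X).d := e
    rw [← e']
    push_cast
    ring
  have hb' : b ∈ Th.cyc (G.v X) m := by
    have h := hb
    change b ∈ Th.gr (G.v X) (Th.dim (G.v X) - (n : ℤ)) at h
    rw [hm] at h
    exact h
  obtain ⟨k, z, hk, hka, hz⟩ := G.toWeilCoh.exists_mul X n a ha
  obtain ⟨l, g, hl, hlb, hg⟩ := G.toWeilCoh.exists_mul X m b hb'
  refine ⟨k * l, z, g, mul_ne_zero hk hl, ?_⟩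
  have h1 := G.exterior X n m e z g _ hka _ hlb hz hg
  have h2 := h1.trans (ChowTheory.ext_smul Th k l a b)
  have h3 := zsmul_val (T := Th.toOld) (k * l)
    (show CHM.Mot.h Th.toOld (G.v X) 0 ⟶ CHM.Mot.h Th.toOld (G.v X) 0 from r ≫ s)
  apply Subtype.ext
  exact (h2.trans (congrArg (fun t => (k * l) • t) hab'.symm)).trans h3.symm

end CHS
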