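import Pool.Agent.WAG.St

/-!
# NPS: counting pairs in a multiset
-/

open Polynomial

namespace Pool.Agent.WAG

open Pool.Agent.TJ2 Pool.Agent.WAE Pool.Agent.WAF

noncomputable section

namespace NPS

open Classical in
lemma pairs (q : ℂ) (s : Multiset ℂ) : ∀ t : Multiset ℂ, (∀ a ∈ t, a ≠ 0) →
    Multiset.card ((t ×ˢ s).filter (fun x => x.1 * x.2 = q)) =
      (t.map (fun a => s.count (q / a))).sum := by
  intro t
  induction t using Multiset.induction_on with
  | empty => simp
  | cons a t ih =>
    intro h
    have ha : a ≠ 0 := h a (Multiset.mem_cons_self a t)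
    rw [Multiset.cons_product, Multiset.filter_add, Multiset.card_add,
      ih fun b hb => h b (Multiset.mem_cons_of_mem hb), Multiset.map_cons, Multiset.sum_cons,
      Multiset.filter_map, Multiset.card_map, Multiset.count_eq_card_filter_eq]
    congr 2
    refine Multiset.filter_congr fun b _ => ?_
    simp only [Function.comp]
    rw [div_eq_iff ha, mul_comm b a, eq_comm]

end NPS

theorem t_NPS : S_NPS := by
  classical
  intro q s hq h0 hs
  have hq0 : (q : ℂ) ≠ 0 := by
    have : q ≠ 0 := by omega
    exact_mod_cast this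
  have hne : ∀ a ∈ s, a ≠ 0 := by
    rintro a ha rfl
    exact h0 ha
  have e1 : nPairs q s = (s.map (fun a => s.count ((q : ℂ) / a))).sum := by
    unfold nPairs
    convert NPS.pairs (q : ℂ) s s hne using 3
  have e2 : s.map (fun a => s.count ((q : ℂ) / a)) = s.map (fun a => s.count a) := by
    refine Multiset.map_congr rfl fun a ha => ?_
    have h1 : (s.map (fun z => (q : ℂ) / z)).count ((q : ℂ) / a) = s.count a := by
      refine Multiset.count_map_eq_count (fun z => (q : ℂ) / z) s ?_ a ha
      intro x hx y hy hxy
      have hx0 : x ≠ 0 := hne x hx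
      have hy0 : y ≠ 0 := hne y hy
      have h2 : (q : ℂ) / x = (q : ℂ) / y := hxy
      rw [div_eq_div_iff hx0 hy0] at h2
      exact (mul_left_cancel₀ hq0 h2).symm
    rw [hs] at h1
    exact h1
  rw [e1, e2, Finset.sum_multiset_map_count]
  unfold sqs
  refine Finset.sum_congr ?_ fun z _ => ?_
  · congr
  · rw [smul_eq_mul, pow_two]

end

end Pool.Agent.WAG
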