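import Pool.Agent.WAG.St
import Pool.Agent.WAF.TRF
import Pool.Agent.WAF.MUL
import Pool.Agent.WAV.PRJ
import Pool.Agent.TJ2.KEB
import Pool.Agent.MotP.Van

/-!
# Module SYM of block WAG: the symmetry of the Frobenius eigenvalues of a polarised object
-/

open CategoryTheory MonoidalCategory BraidedCategory Limits Polynomial

universe v u

namespace Pool.Agent.WAG

open Pool.Agent.TJ2 Pool.Agent.TJ3 Pool.Agent.WAV Pool.Agent.WAE Pool.Agent.WAF

noncomputable section

section Cat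

variable {C : Type u} [Category.{v} C] [Preadditive C] [Linear ℚ C] [MonoidalCategory C]
  [SymmetricCategory C] [MonoidalPreadditive C] [MonoidalLinear ℚ C] [RightRigidCategory C]

/-- powers of Frobenius as morphisms -/
def SYM_Fn (W : MotP.Frobenius C) (X : C) (n : ℕ) : X ⟶ X :=
  ((Mot.component W.F X ^ n : End X) : X ⟶ X)

theorem SYM_nat (W : MotP.Frobenius C) {X Y : C} (f : X ⟶ Y) (n : ℕ) :
    SYM_Fn W X n ≫ f = f ≫ SYM_Fn W Y n := by
  have h := aeval_nat W f (Polynomial.X ^ n : ℚ[X])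
  rw [map_pow, map_pow, aeval_X, aeval_X] at h
  exact h

theorem SYM_tensor (W : MotP.Frobenius C) (X Y : C) (n : ℕ) :
    SYM_Fn W (X ⊗ Y) n = SYM_Fn W X n ⊗ₘ SYM_Fn W Y n := TRF_pow W X Y n

theorem SYM_unit (W : MotP.Frobenius C) (n : ℕ) : SYM_Fn W (𝟙_ C) n = 𝟙 (𝟙_ C) := by
  have h1 : (Mot.component W.F (𝟙_ C) : End (𝟙_ C)) = 1 := W.F_unit
  unfold SYM_Fn
  rw [h1, one_pow]
  rfl

omit [Preadditive C] [Linear ℚ C] [MonoidalPreadditive C] [MonoidalLinear ℚ C] in
/-- the trace of an endomorphism of the dual -/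
theorem SYM_dual {X : C} (G : Xᘁ ⟶ Xᘁ) (H : X ⟶ X) (h : η_ X Xᘁ ≫ X ◁ G = η_ X Xᘁ ≫ H ▷ Xᘁ) :
    Mot.trace G = Mot.trace H := by
  let inst : ExactPairing Xᘁ X := exactPairing_swap X Xᘁ
  have h1 : Mot.trace G = @Mot.trP C _ _ _ Xᘁ X inst G := by
    rw [KEB_trace]
    exact Mot.trP_indep G
  rw [h1]
  unfold Mot.trP Mot.ev
  have h2 : @ExactPairing.coevaluation C _ _ Xᘁ X inst = η_ X Xᘁ ≫ (β_ Xᘁ X).inv := rfl
  have h3 : @ExactPairing.evaluation C _ _ Xᘁ X inst = (β_ X Xᘁ).hom ≫ ε_ X Xᘁ := rfl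
  rw [h2, h3]
  have h4 : (β_ Xᘁ X).inv = (β_ X Xᘁ).hom :=
    (SymmetricCategory.braiding_swap_eq_inv_braiding Xᘁ X).symm
  rw [h4, SymmetricCategory.symmetry_assoc, Category.assoc, ← braiding_naturality_right_assoc,
    ← Category.assoc, h]
  unfold Mot.trace
  rw [Category.assoc]

/-- the inverse of the power of Frobenius and the trace on the dual -/
theorem SYM_inv (W : MotP.Frobenius C) (X : C) (n : ℕ) : ∃ H : End X,
    (H : X ⟶ X) ≫ SYM_Fn W X n = 𝟙 X ∧ Mot.trace (SYM_Fn W Xᘁ n) = Mot.trace (H : X ⟶ X) := by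
  obtain ⟨H, hH⟩ := MotP.nm_surj (η_ X Xᘁ ≫ X ◁ SYM_Fn W Xᘁ n)
  have h1 : η_ X Xᘁ ≫ (SYM_Fn W X n ⊗ₘ SYM_Fn W Xᘁ n) = η_ X Xᘁ := by
    rw [← SYM_tensor, ← SYM_nat, SYM_unit, Category.id_comp]
  refine ⟨H, ?_, SYM_dual _ H hH.symm⟩
  apply MotP.nm_inj
  rw [MotP.nm_comp, hH, Category.assoc, ← tensorHom_def', h1]
  unfold MotP.nm
  rw [id_whiskerRight, Category.comp_id]

/-- isomorphic objects have the same traces of the powers of Frobenius -/
theorem SYM_iso (W : MotP.Frobenius C) {X Y : C} (e : X ≅ Y) (n : ℕ) :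
    Mot.trace (SYM_Fn W X n) = Mot.trace (SYM_Fn W Y n) := by
  have h1 : SYM_Fn W X n = e.hom ≫ (SYM_Fn W Y n ≫ e.inv) := by
    rw [← Category.assoc, ← SYM_nat, Category.assoc, e.hom_inv_id, Category.comp_id]
  rw [h1, KEB_comm, Category.assoc, e.inv_hom_id, Category.comp_id]

end Cat

theorem t_SYM : S_SYM.{v, u} := by
  intro C _ _ _ _ _ _ _ _ W q D hq Y hY
  classical
  obtain ⟨P, hPsf, hPF, hPr⟩ := D.semi Y hY
  have hev : W.even Y = 0 := D.even Y hY
  obtain ⟨e⟩ := D.pol Y hY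
  set F : End Y := Mot.component W.F Y with hFdef
  have hq0 : (q : ℂ) ≠ 0 := by
    have : q ≠ 0 := by omega
    exact_mod_cast this
  -- the inverse of Frobenius
  obtain ⟨G, hG, -⟩ := SYM_inv W Y 1
  have hG2 : G * F = 1 := by
    have h1 : SYM_Fn W Y 1 ≫ (G : Y ⟶ Y) = 𝟙 Y := by rw [SYM_nat]; exact hG
    unfold SYM_Fn at h1
    rw [pow_one] at h1
    exact h1
  -- zero is no eigenvalue
  have h0 : (0 : ℂ) ∉ W.odd Y := by
    intro h0
    have h1 := (hPr 0).2 h0
    have h2 : P.coeff 0 = 0 := by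
      rw [← Polynomial.coeff_zero_eq_aeval_zero'] at h1
      simpa using h1
    obtain ⟨P', rfl⟩ := Polynomial.X_dvd_iff.2 h2
    have h3 : aeval F P' = 0 := by
      rw [map_mul, aeval_X] at hPF
      have h4 : G * (F * aeval F P') = 0 := by rw [hPF, mul_zero]
      rwa [← mul_assoc, hG2, one_mul] at h4
    have h5 := (t_TRF C W Y Y P' 0).1 (by
      rw [h3, zero_smul]
      exact (TRF_lin Y).map_zero)
    rw [hev, Multiset.map_zero, Multiset.sum_zero, zero_sub, Rat.cast_zero] at h5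
    have h6 : ((W.odd Y).map (fun z => aeval z P')).sum =
        ((W.odd Y).map (fun w => if w = 0 then (aeval (0 : ℂ) P') else 0)).sum := by
      congr 1
      refine Multiset.map_congr rfl fun z hz => ?_
      by_cases hz0 : z = 0
      · rw [if_pos hz0, hz0]
      · rw [if_neg hz0]
        have h7 := (hPr z).2 hz
        rw [map_mul, aeval_X] at h7
        exact (mul_eq_zero.1 h7).resolve_left hz0
    have h8 : ((W.odd Y).map (fun w => if w = 0 then (aeval (0 : ℂ) P') else 0)).sum =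
        ((W.odd Y).count 0 : ℂ) * aeval (0 : ℂ) P' := by
      rw [← MUL.sum_ite, ← Multiset.sum_map_mul_right]
      congr 1
      refine Multiset.map_congr rfl fun z _ => ?_
      split_ifs <;> simp
    rw [h6, h8] at h5
    have h9 : ((W.odd Y).count 0 : ℂ) ≠ 0 := by
      have := Multiset.count_pos.2 h0
      have h10 : (W.odd Y).count 0 ≠ 0 := by omega
      exact_mod_cast h10
    have h11 : aeval (0 : ℂ) P' = 0 := (mul_eq_zero.1 (neg_eq_zero.1 h5.symm)).resolve_left h9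
    have h12 : P'.coeff 0 = 0 := by
      rw [← Polynomial.coeff_zero_eq_aeval_zero'] at h11
      simpa using h11
    obtain ⟨P'', rfl⟩ := Polynomial.X_dvd_iff.2 h12
    have h13 := hPsf X ⟨P'', by ring⟩
    exact Polynomial.not_isUnit_X h13
  refine ⟨h0, ?_⟩
  -- the polynomial `R`
  have hP0 : P.coeff 0 ≠ 0 := by
    intro h
    refine h0 ((hPr 0).1 ?_)
    rw [← Polynomial.coeff_zero_eq_aeval_zero', h, map_zero]
  have hcop : IsCoprime (X : ℚ[X]) P := by
    refine (Polynomial.irreducible_X.coprime_iff_not_dvd).2 fun h => hP0 ?_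
    exact Polynomial.X_dvd_iff.1 h
  obtain ⟨R, S, hRS⟩ := hcop
  have hRF : aeval F R * F = 1 := by
    have h1 := congrArg (aeval F) hRS
    rw [map_add, map_mul, map_mul, hPF, mul_zero, add_zero, aeval_X, map_one] at h1
    exact h1
  have hRa : ∀ a ∈ W.odd Y, aeval a R = a⁻¹ := by
    intro a ha
    have h1 := congrArg (aeval a) hRS
    rw [map_add, map_mul, map_mul, (hPr a).2 ha, mul_zero, add_zero, aeval_X, map_one] at h1
    exact eq_inv_of_mul_eq_one_left h1
  -- the traces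
  have hdual : ∀ n, Mot.trace (SYM_Fn W Yᘁ n) =
      Mot.trace ((aeval F (R ^ n) : End Y) : Y ⟶ Y) := by
    intro n
    obtain ⟨H, hH, hHt⟩ := SYM_inv W Y n
    rw [hHt]
    have h1 : F ^ n * H = 1 := hH
    have h2 : aeval F (R ^ n) * F ^ n = 1 := by
      have hc : Commute (aeval F R) F := by
        exact (Commute.all (R : ℚ[X]) X).map (aeval F) |> fun h => by simpa using h
      rw [map_pow, ← hc.mul_pow, hRF, one_pow]
    have h3 : H = aeval F (R ^ n) := by
      calc H = (aeval F (R ^ n) * F ^ n) * H := by rw [h2, one_mul]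
        _ = aeval F (R ^ n) := by rw [mul_assoc, h1, mul_one]
    rw [h3]
  by_cases hne : Mot.trace (𝟙 Y) = 0
  · have h1 : Mot.trace (Mot.component W.F Y ^ 0) = (0 : ℚ) • 𝟙 (𝟙_ C) := by
      rw [zero_smul]
      exact hne
    have h2 := W.trace_formula Y 0 0 h1
    rw [hev] at h2
    simp only [pow_zero, Multiset.map_zero, Multiset.sum_zero, Multiset.map_const',
      Multiset.sum_replicate, nsmul_eq_mul, mul_one, zero_sub, Rat.cast_zero] at h2
    have h3 : Multiset.card (W.odd Y) = 0 := by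
      have h4 : ((Multiset.card (W.odd Y) : ℕ) : ℂ) = 0 := neg_eq_zero.1 h2.symm
      exact_mod_cast h4
    rw [Multiset.card_eq_zero] at h3
    rw [h3, Multiset.map_zero]
  · have hT1 : Mot.trace (𝟙 D.T) = 𝟙 (𝟙_ C) := (t_KEB C W Y D.T).2.2 ⟨e⟩ hne
    refine (t_MUL _ _ fun n => ?_).symm
    obtain ⟨y, hy⟩ := W.scalar (Mot.trace (SYM_Fn W Y n))
    obtain ⟨d, hd⟩ := W.scalar (Mot.trace (SYM_Fn W Yᘁ n))
    have hT : Mot.trace (SYM_Fn W D.T n) = ((q : ℚ) ^ n) • 𝟙 (𝟙_ C) := by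
      have h1 : SYM_Fn W D.T n = ((q : ℚ) ^ n) • 𝟙 D.T := by
        have h2 : (Mot.component W.F D.T : End D.T) = algebraMap ℚ (End D.T) (q : ℚ) := by
          rw [Algebra.algebraMap_eq_smul_one]
          exact D.frobT
        unfold SYM_Fn
        rw [h2, ← map_pow, Algebra.algebraMap_eq_smul_one]
        rfl
      rw [h1]
      have h3 := (TRF_lin D.T).map_smul ((q : ℚ) ^ n) (𝟙 D.T)
      have h4 : (TRF_lin D.T) (𝟙 D.T) = 𝟙 (𝟙_ C) := hT1
      rw [h4] at h3
      exact h3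
    have h1 : Mot.trace (SYM_Fn W (Yᘁ ⊗ D.T) n) = (d * (q : ℚ) ^ n) • 𝟙 (𝟙_ C) := by
      rw [SYM_tensor]
      exact KEB_tensor _ _ _ _ hd hT
    rw [SYM_iso W e n, hy] at h1
    have h2 : y = d * (q : ℚ) ^ n := TRF_inj W h1
    have h3 := W.trace_formula Y n y hy
    have h4 := (t_TRF C W Y Y (R ^ n) d).1 (by rw [← hdual n]; exact hd)
    rw [hev, Multiset.map_zero, Multiset.sum_zero, zero_sub] at h3 h4
    have h5 : ((W.odd Y).map (fun z => aeval z (R ^ n))).sum =
        ((W.odd Y).map (fun z => (z⁻¹) ^ n)).sum := by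
      congr 1
      refine Multiset.map_congr rfl fun z hz => ?_
      rw [map_pow, hRa z hz]
    rw [h5] at h4
    rw [h2] at h3
    push_cast at h3
    rw [h4] at h3
    have h6 : ((W.odd Y).map (fun z => z ^ n)).sum =
        ((W.odd Y).map (fun z => (z⁻¹) ^ n)).sum * (q : ℂ) ^ n := by
      linear_combination h3
    rw [h6, ← Multiset.sum_map_mul_right, Multiset.map_map]
    congr 1
    refine Multiset.map_congr rfl fun z _ => ?_
    simp only [Function.comp_apply]
    rw [div_pow, inv_pow, div_eq_mul_inv, mul_comm]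

end

end Pool.Agent.WAG
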