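import Pool.Agent.WAG.StC

/-!
# Module TCH (MP_6c4da4_ag, helper7): Tate's theorem, translation
-/

set_option autoImplicit false

open CategoryTheory MonoidalCategory CartesianMonoidalCategory Limits Polynomial

universe v u w x

namespace Pool.Agent.WAG

open CHS

theorem t_TCH : S_TCH.{v, u, w, x} := by
  classical
  intro V _ _ T K D Y hY hev
  have hnum : ∀ f : Y ⟶ Y, MotP.NumTrivial f → f = 0 := by
    intro f hf
    have h1 : f ∈ CHM.Mot.numHom (Mot.new Y).old (Mot.new Y).old :=
      (CHM.Mot.mem_numHom f).2 hf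
    have h2 := D.num (Mot.new Y) hY (Mot.newHom f)
      ((Mot.numHom_iff (M := Mot.new Y) (N := Mot.new Y) f).1 h1)
    exact congrArg Mot.oldHom h2
  have hbot : CHM.Mot.numHom Y Y = ⊥ := by
    rw [eq_bot_iff]
    intro f hf
    rw [Submodule.mem_bot]
    exact hnum f ((CHM.Mot.mem_numHom f).1 hf)
  have hT : K.toOld.TateFormula Y := (K.tateFormula_iff (Mot.new Y)).1 (D.tate _ hY)
  unfold CHM.Cohomology.TateFormula at hT
  rw [(Submodule.quotEquivOfEqBot _ hbot).rank_eq] at hT
  have hroots := K.toOld.roots_frobM Y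
  rw [hev, zero_add] at hroots
  refine ⟨?_, hnum, ?_⟩
  · rw [Module.finrank_eq_of_rank_eq hT]
    unfold sqs
    rw [← hroots]
    refine Finset.sum_congr ?_ fun z _ => ?_
    · ext z
      simp only [Multiset.mem_toFinset]
    · unfold CHM.Cohomology.multM
      rw [← Polynomial.count_roots]
  · rw [← Module.rank_lt_aleph0_iff, hT]
    exact Cardinal.natCast_lt_aleph0

end Pool.Agent.WAG
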