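import Pool.Agent.WAG.StC

/-!
# Block WAG, module YCH: the motives `h¹(A)`, first part (MP_6c4da4_ag)
-/

set_option autoImplicit false

open CategoryTheory MonoidalCategory CartesianMonoidalCategory Limits Polynomial

universe v u w x

namespace Pool.Agent.WAG

open CHS

namespace YCH

variable {V : Type u} [Category.{v} V] [CartesianMonoidalCategory V] {T : ChowTheory.{v, u, w} V}
  (K : Cohomology.{v, u, w, x} T) (D : AbelianMotives K)

/-- the action of the projector has values in degree `1` -/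
theorem act_mem_one {Y : CHM.Mot T.toOld} (hY : D.Ab (Mot.new Y)) (y : K.toOld.H Y.X) :
    K.toOld.act Y.p y ∈ K.toOld.gr Y.X 1 := by
  obtain ⟨s, t, ht, hyt⟩ := K.toOld.exists_sum Y.X y
  rw [hyt, map_sum]
  refine Submodule.sum_mem _ fun i _ => ?_
  by_cases hi : i = 1
  · subst hi
    have hp : Y.p ∈ T.toOld.gr (Y.X ⊗ Y.X) (T.toOld.dim Y.X + 0) := by
      rw [add_zero]
      exact Y.deg
    have h1 := K.toOld.act_mem 0 1 Y.p (t 1) hp (ht 1)
    rw [mul_zero, add_zero] at h1
    exact h1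
  · have h1 : K.toOld.act Y.p (t i) = 0 := D.degree (Mot.new Y) hY i (t i) (ht i) hi
    rw [h1]
    exact zero_mem _

theorem evenPart_bot {Y : CHM.Mot T.toOld} (hY : D.Ab (Mot.new Y)) :
    K.toOld.evenPart Y = ⊥ := by
  rw [eq_bot_iff]
  intro y hy
  rw [Submodule.mem_bot]
  obtain ⟨h1, h2⟩ := K.toOld.mem_evenPart.1 hy
  have h3 := act_mem_one K D hY y
  rw [h1] at h3
  have h4 := K.toOld.sgn_apply Y.X 1 y h3
  rw [h2, zpow_one, neg_one_smul] at h4
  have h5 : (2 : ℂ) • y = 0 := by
    rw [two_smul]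
    nth_rewrite 2 [h4]
    exact add_neg_cancel y
  rcases smul_eq_zero.1 h5 with h6 | h6
  · norm_num at h6
  · exact h6

end YCH

open YCH in
/-- the motives `h¹(A)`, first part -/
theorem t_YCH : S_YCH := by
  intro V _ _ T K D
  refine ⟨fun Y hY => ?_, fun Y Z hY hZ => ?_⟩
  · have hE : K.toOld.frobenius.even Y = 0 := K.toOld.even_zero (evenPart_bot K D hY)
    refine ⟨hE, fun z => ?_, ?_, ?_, ?_⟩
    · have hm : (Mot.new Y).m = 0 := D.twist _ hY
      rw [K.mult_old, hm, neg_zero, zpow_zero, one_mul, Mot.old_new, K.toOld.multM_add, hE,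
        Multiset.count_zero, zero_add]
    · obtain ⟨e⟩ := D.pol _ hY
      exact ⟨(oldFunctor T).mapIso e⟩
    · intro e he ht
      have h1 : Mot.newHom (M := (Mot.new Y).tensor (Mot.new Y))
          (N := (Mot.new Y).tensor (Mot.new Y)) e = 0 := by
        refine D.kimura _ hY _ ?_ ?_
        · exact congrArg (Mot.newHom (M := (Mot.new Y).tensor (Mot.new Y))
            (N := (Mot.new Y).tensor (Mot.new Y))) he
        · have h2 := (CHM.Mot.trace_zero_iff e).1 ht
          exact (T.old_deg _).symm.trans h2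
      exact congrArg (Mot.oldHom (M := (Mot.new Y).tensor (Mot.new Y))
          (N := (Mot.new Y).tensor (Mot.new Y))) h1
    · intro N hN
      exact D.res _ hY N hN
  · obtain ⟨U, hU, i, p, j, r, h1, h2, h3⟩ := D.sum _ _ hY hZ
    exact ⟨U.old, Mot.oldHom i, Mot.oldHom p, Mot.oldHom j, Mot.oldHom r, hU,
      congrArg Mot.oldHom h1, congrArg Mot.oldHom h2, congrArg Mot.oldHom h3⟩

end Pool.Agent.WAG
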