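import Pool.Agent.WAG.Asm
import Pool.Agent.WAG.FCG
import Pool.Agent.WAG.ECH
import Pool.Agent.WAG.ETN
import Pool.Agent.WAG.NPS
import Pool.Agent.WAG.SYM
import Pool.Agent.WAG.TCH
import Pool.Agent.WAG.YCH

/-!
# Assembly of block WAG (MP_cb388a_ag, MP_6c4da4_ag; helper51), with the module SCH as a hypothesis
-/

open CategoryTheory MonoidalCategory Limits Polynomial Filter

universe v u w x

namespace Pool.Agent.WAG

open Pool.Agent.TJ2 Pool.Agent.TJ3 Pool.Agent.TJ4 Pool.Agent.WAV Pool.Agent.WAE Pool.Agent.WAF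
  MotP.GGap

noncomputable section

/-- the structure of block WAF -/
def AVE.toT {C : Type u} [Category.{v} C] [Preadditive C] [Linear ℚ C] [MonoidalCategory C]
    [SymmetricCategory C] [MonoidalPreadditive C] [MonoidalLinear ℚ C] [RightRigidCategory C]
    {W : MotP.Frobenius C} {q : ℕ} (D : AVE W q) (hq : 2 ≤ q) : AVT W q :=
  D.toAVT t_ETN t_SYM t_NPS hq

/-- abstract categories: finite generation -/
theorem fgE (C : Type u) [Category.{0} C] [Preadditive C] [Linear ℚ C] [MonoidalCategory C]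
    [SymmetricCategory C] [MonoidalPreadditive C] [MonoidalLinear ℚ C] [RightRigidCategory C]
    [HasFiniteBiproducts C] [IsIdempotentComplete C] (W : MotP.Frobenius C) (q : ℕ)
    (hq : 2 ≤ q) (D : AVE W q) (Λ : ℂ → Prop) (hPar : Par q Λ)
    (hA : ∀ z, Λ z → ‖z‖ ^ 2 = (q : ℝ)) (M : Chow W) (hM : M.q = q) (hL : Lef M D.T)
    (X : M.V) (hX : Gen (D.Gn Λ) (M.h X)) (n : ℕ) : (M.coh X).L n :=
  fgZ C W q hq (D.toT hq) Λ hPar hA M hM hL X hX n

/-- abstract categories: the generated category is abelian -/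
theorem abE (C : Type u) [Category.{v} C] [Preadditive C] [Linear ℚ C] [MonoidalCategory C]
    [SymmetricCategory C] [MonoidalPreadditive C] [MonoidalLinear ℚ C] [RightRigidCategory C]
    [HasFiniteBiproducts C] [IsIdempotentComplete C] (W : MotP.Frobenius C) (q : ℕ)
    (hq : 2 ≤ q) (D : AVE W q) (Λ : ℂ → Prop) (hPar : Par q Λ)
    (hA : ∀ z, Λ z → ‖z‖ ^ 2 = (q : ℝ)) :
    MotP.IsAbelian (GenCat (D.Gn Λ)) ∧
      ∀ (X Y : C) (f : X ⟶ Y), Gen (D.Gn Λ) X → Gen (D.Gn Λ) Y → MotP.NumTrivial f → f = 0 :=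
  abZ C W q hq (D.toT hq) Λ hPar hA

section

variable {V : Type u} [Category.{v} V] [CartesianMonoidalCategory V]
  {T : CHS.ChowTheory.{v, u, w} V} {K : CHS.Cohomology.{v, u, w, x} T}

theorem gn_iff (hS : S_SCH.{v, u, w, x}) (D : CHS.AbelianMotives K) (Λ : ℂ → Prop)
    (Y : CHM.Mot T.toOld) :
    (toAVE t_ECH t_YCH t_TCH hS D).Gn Λ Y ↔ Y = CHM.Mot.lef T.toOld ∨
      (∃ N, 1 ≤ N ∧ Y = CHM.Mot.h T.toOld (D.E N) 0) ∨
      (D.Ab (CHS.Mot.new Y) ∧ ∀ z : ℂ, K.mult (CHS.Mot.new Y) z ≠ 0 → Λ z) := by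
  refine or_congr Iff.rfl (or_congr Iff.rfl (and_congr_right fun hA => forall_congr' fun z => ?_))
  have h1 := ((t_YCH V T K D).1 Y hA).2.1 z
  rw [← h1, ← Multiset.count_ne_zero]

/-- Chow motives: the generated category is abelian, rational and numerical equivalence agree -/
theorem abS (hS : S_SCH.{v, u, w, x}) (D : CHS.AbelianMotives K) (Λ : ℂ → Prop)
    (hPar : Par T.q Λ) (hA : ∀ z, Λ z → ‖z‖ ^ 2 = (T.q : ℝ)) :
    CHS.IsAbelian (CHS.CatBy (D.Gn Λ)) ∧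
      (∀ (M N : CHS.Mot T) (f : M ⟶ N), CHS.GenBy (D.Gn Λ) M → CHS.GenBy (D.Gn Λ) N →
        T.NumTrivial (CHS.Mot.Hom.val f) → f = 0) ∧
      ∀ X : V, CHS.GenBy (D.Gn Λ) (CHS.Mot.h T X) → ∀ a : T.CH X, T.NumTrivial a → a = 0 := by
  obtain ⟨h1, h2⟩ := abE (CHM.Mot T.toOld) K.toOld.frobenius T.q T.one_lt
    (toAVE t_ECH t_YCH t_TCH hS D) Λ hPar hA
  exact t_FCG D Λ _ (gn_iff hS D Λ) h1 h2

end

end

end Pool.Agent.WAG
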