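import Pool.Agent.WAG.Main
import Pool.Agent.WAG.LCH

/-!
# Assembly of block WAG (MP_cb388a_ag; helper51): Chow motives and Weil-etale cohomology
-/

open CategoryTheory MonoidalCategory Limits Polynomial Filter

universe x

namespace Pool.Agent.WAG

open Pool.Agent.TJ2 Pool.Agent.TJ3 Pool.Agent.TJ4 Pool.Agent.WAV Pool.Agent.WAE Pool.Agent.WAF
  MotP.GGap

noncomputable section

/-- finite generation of Weil-etale cohomology -/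
theorem fgS {V : Type} [Category.{0} V] [CartesianMonoidalCategory V]
    {T : CHS.ChowTheory.{0, 0, 0} V} {K : CHS.Cohomology.{0, 0, 0, x} T}
    (D : CHS.AbelianMotives K) (G : CHS.WeilProducts K) (Λ : ℂ → Prop)
    (hPar : Par T.q Λ) (hA : ∀ z, Λ z → ‖z‖ ^ 2 = (T.q : ℝ)) (X : G.U)
    (hX : CHS.GenBy (D.Gn Λ) (CHS.Mot.h T (G.v X))) (n : ℕ) : (G.coh X).L n := by
  have h1 : Gen ((ofChow D).Gn Λ) (CHM.Mot.h T.toOld (G.v X) 0) :=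
    (gen_iff D Λ _ (gn_iff t_SCH D Λ) _).1 (CHS.old_genBy (D.Gn Λ) hX)
  exact fgE (CHM.Mot T.toOld) K.toOld.frobenius T.q T.one_lt (ofChow D) Λ hPar hA
    G.toWeilCoh.chow rfl G.lef X h1 n

/-- the final theorem for Chow motives and Weil-etale cohomology -/
theorem main_wc :
    (∀ (V : Type) [Category.{0} V] [CartesianMonoidalCategory V]
      (T : CHS.ChowTheory.{0, 0, 0} V) (K : CHS.Cohomology.{0, 0, 0, x} T)
      (D : CHS.AbelianMotives K) (G : CHS.WeilProducts K) (Λ : ℂ → Prop),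
      Par T.q Λ → (∀ z, Λ z → ‖z‖ ^ 2 = (T.q : ℝ)) →
      ∀ X : G.U, CHS.GenBy (D.Gn Λ) (CHS.Mot.h T (G.v X)) → ∀ n : ℕ, (G.coh X).L n) ∧
    (∀ (q : ℕ) (ν : AbsoluteValue Qb ℝ) (S : Set ℤ[X]), IsPrimePow q → Ab q ν → S ⊆ FL q →
      Cr q ν S → Par q (Adm q S) ∧ ∀ z : ℂ, Adm q S z → ‖z‖ ^ 2 = (q : ℝ)) ∧
    ∃ S : ℕ → Set ℤ[X],
      (∀ q, IsPrimePow q → S q ⊆ FL q ∧ Ord 1 q ⊆ S q ∧ (∃ ν, Ab q ν) ∧
        ∀ ν, Ab q ν → Cr q ν (S q)) ∧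
      ∀ (g : ℕ) (A : ℕ → Set ℤ[X]), 1 ≤ g →
        (∀ q, IsPrimePow q → Ord g q ⊆ A q ∧ A q ⊆ AVP g q) →
        Tendsto (fun q : {q : ℕ // IsPrimePow q} => ((S q ∩ A q).ncard : ℝ) / (A q).ncard)
          atTop (nhds 1) :=
  ⟨fun _ _ _ _ _ D G Λ hPar hA X hX n => fgS D G Λ hPar hA X hX n, arith, dens⟩

end

end Pool.Agent.WAG
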