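import Pool.Agent.WAG.RDefs
import Pool.Agent.WAG.AbDefs
import Pool.Agent.MotE.Fin

/-!
# Conversion of the structure `Raw.AbelianMotives` to `AbelianMotives` (MP_cb388a_ag, helper51)
-/

set_option autoImplicit false

open CategoryTheory MonoidalCategory CartesianMonoidalCategory Limits

universe x

namespace CHS

variable {V : Type} [Category.{0} V] [CartesianMonoidalCategory V] {T : ChowTheory.{0, 0, 0} V}

namespace Raw

theorem val_comp {M N L : Mot T} (f : M ⟶ N) (g : N ⟶ L) :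
    Mot.Hom.val (f ≫ g) = T.cp (Mot.Hom.val f) (Mot.Hom.val g) := rfl

theorem val_add {M N : Mot T} (f g : M ⟶ N) :
    Mot.Hom.val (f + g) = Mot.Hom.val f + Mot.Hom.val g := rfl

theorem val_id (M : Mot T) : Mot.Hom.val (𝟙 M) = M.p := rfl

theorem val_zero (M N : Mot T) : Mot.Hom.val (0 : M ⟶ N) = 0 := rfl

/-- the value of a morphism as a homomorphism -/
def valHom (M N : Mot T) : (M ⟶ N) →+ T.CH (M.X ⊗ N.X) where
  toFun := Mot.Hom.val
  map_zero' := rfl
  map_add' _ _ := rfl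

theorem split_iff {M N : Mot T} {f : T.CH (M.X ⊗ N.X)} {g : T.CH (N.X ⊗ M.X)}
    (h : Split M N f g) : ∃ (a : M ⟶ N) (b : N ⟶ M), Mot.Hom.val a = f ∧ Mot.Hom.val b = g ∧
      a ≫ b = 𝟙 M :=
  ⟨⟨f, h.1.1⟩, ⟨g, h.1.2⟩, rfl, rfl, Mot.Hom.ext h.2⟩

theorem IsSum.conv {L M N : Mot T} (h : IsSum L M N) : Mot.IsSum L M N := by
  obtain ⟨i, p, j, q, h1, h2, h3⟩ := h
  obtain ⟨a, b, rfl, rfl, h4⟩ := split_iff h1
  obtain ⟨c, d, rfl, rfl, h5⟩ := split_iff h2
  exact ⟨a, b, c, d, h4, h5, Mot.Hom.ext h3⟩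

theorem Isom.conv {M N : Mot T} (h : Isom M N) : Mot.Isom M N := by
  obtain ⟨f, g, h1, h2⟩ := h
  exact ⟨⟨⟨f, h1.1.1⟩, ⟨g, h1.1.2⟩, Mot.Hom.ext h1.2, Mot.Hom.ext h2.2⟩⟩

theorem Within.conv {M N : Mot T} (h : Within M N) : Mot.Within M N := by
  obtain ⟨n, f, g, h1, h2⟩ := h
  refine ⟨n, fun k => ⟨f k, (h1 k).1⟩, fun k => ⟨g k, (h1 k).2⟩, Mot.Hom.ext ?_⟩
  refine Eq.trans ?_ h2
  exact map_sum (valHom M M) _ _

theorem TraceZero.conv {M : Mot T} (h : TraceZero M) : Mot.TraceZero M := by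
  intro e he ht
  exact Mot.Hom.ext (h (Mot.Hom.val e) e.prop (congrArg Mot.Hom.val he) ht)

theorem NumZero.conv {M : Mot T} (h : NumZero M) : Mot.NumZero M := by
  intro f hf
  exact Mot.Hom.ext (h (Mot.Hom.val f) f.prop hf)

theorem frPow_eq (X : V) (n : ℕ) : frPow T X n = T.frPow X n := by
  induction n with
  | zero => rfl
  | succ n ih =>
    unfold frPow at ih ⊢
    rw [Function.iterate_succ_apply', ih]
    rfl

variable {K : Cohomology.{0, 0, 0, x} T}

/-- conversion -/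
def AbelianMotives.conv (D : AbelianMotives K) : CHS.AbelianMotives K where
  E := D.E
  point := D.point
  dimE := D.dimE
  frobE N hN := (frPow_eq (D.E N) N).symm.trans (D.frobE N hN)
  degE := D.degE
  rootE := D.rootE
  sumE N hN := by
    refine Eq.trans ?_ (D.sumE N hN)
    exact Finset.sum_congr rfl fun i _ => by rw [frPow_eq]
  prodE N M hN hM := (D.prodE N M hN hM).conv
  Ab := D.Ab
  twist := D.twist
  degree := D.degree
  pol Y hY := (D.pol Y hY).conv
  kimura Y hY := (D.kimura Y hY).conv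
  tate := D.tate
  num Y hY := (D.num Y hY).conv
  sum Y Z hY hZ := by
    obtain ⟨U, hU, h⟩ := D.sum Y Z hY hZ
    exact ⟨U, hU, h.conv⟩
  res := D.res

theorem AbelianMotives.gn_conv (D : AbelianMotives K) (Λ : ℂ → Prop) (Y : Mot T) :
    D.Gn Λ Y ↔ D.conv.Gn Λ Y := Iff.rfl

theorem GenBy.conv {S : Mot T → Prop} {M : Mot T} (h : GenBy S M) : CHS.GenBy S M := by
  induction h with
  | of M h => exact CHS.GenBy.of _ h
  | tate m => exact CHS.GenBy.tate m
  | tensor M N _ _ hM hN => exact CHS.GenBy.tensor _ _ hM hN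
  | dual M _ hM => exact CHS.GenBy.dual _ hM
  | sum L M N h _ _ hM hN =>
    obtain ⟨i, p, j, q, h1, h2, h3⟩ := h.conv
    exact CHS.GenBy.sum M N L i p j q h1 h2 h3 hM hN
  | summand M N f g h _ hN =>
    obtain ⟨a, b, -, -, h4⟩ := split_iff h
    exact CHS.GenBy.summand N M a b h4 hN

end Raw

end CHS
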