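import Pool.Agent.CHS.Ops
import Pool.Agent.CHS.Coh

/-!
# The Chow motives generated by finite fields and abelian varieties over a finite field
(MP_cb388a_ag, helper51)

Morphisms of Chow motives `M ⟶ N` are written as cycles `f` on `M.X × N.X` with `M.IsHom N f`, and
`T.cp f g` is the composition `g ∘ f`; the identity of `M` is `M.p`.
-/

set_option autoImplicit false

open CategoryTheory MonoidalCategory CartesianMonoidalCategory

universe x

namespace CHS.Raw

variable {V : Type} [Category.{0} V] [CartesianMonoidalCategory V] {T : ChowTheory.{0, 0, 0} V}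

/-- The Tate motive `(point, 1, m)`. -/
def pt (T : ChowTheory.{0, 0, 0} V) (m : ℤ) : Mot T :=
  ⟨𝟙_ V, T.graph (𝟙 (𝟙_ V)), m, graph_mem T (𝟙_ V), graph_cp T (𝟙_ V)⟩

/-- `f` and `g` are morphisms `M ⟶ N` and `N ⟶ M`. -/
def Both (M N : Mot T) (f : T.CH (M.X ⊗ N.X)) (g : T.CH (N.X ⊗ M.X)) : Prop :=
  M.IsHom N f ∧ N.IsHom M g

/-- `M` is a direct summand of `N`, by `f : M ⟶ N` and `g : N ⟶ M`, `g ∘ f = 1`. -/
def Split (M N : Mot T) (f : T.CH (M.X ⊗ N.X)) (g : T.CH (N.X ⊗ M.X)) : Prop :=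
  Both M N f g ∧ T.cp f g = M.p

/-- `L` is the direct sum of `M` and `N`. -/
def IsSum (L M N : Mot T) : Prop :=
  ∃ i p j q, Split M L i p ∧ Split N L j q ∧ T.cp p i + T.cp q j = L.p

/-- `M` and `N` are isomorphic. -/
def Isom (M N : Mot T) : Prop := ∃ f g, Split M N f g ∧ Split N M g f

/-- `M` is a direct summand of a direct sum of copies of `N`. -/
def Within (M N : Mot T) : Prop :=
  ∃ (n : ℕ) (f : Fin n → T.CH (M.X ⊗ N.X)) (g : Fin n → T.CH (N.X ⊗ M.X)),
    (∀ k, Both M N (f k) (g k)) ∧ ∑ k, T.cp (f k) (g k) = M.p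

/-- An idempotent endomorphism of `M` of trace `0` is `0`. -/
def TraceZero (M : Mot T) : Prop :=
  ∀ e, M.IsHom M e → T.cp e e = e → T.deg (T.pull (lift (𝟙 M.X) (𝟙 M.X)) e) = 0 → e = 0

/-- A numerically trivial endomorphism of `M` is `0`. -/
def NumZero (M : Mot T) : Prop := ∀ f, M.IsHom M f → T.NumTrivial f → f = 0

/-- The powers of the Frobenius endomorphism of `X`. -/
def frPow (T : ChowTheory.{0, 0, 0} V) (X : V) (n : ℕ) : X ⟶ X :=
  (fun f => f ≫ T.Fr X)^[n] (𝟙 X)

/-- Finite fields and abelian varieties in the category of Chow motives over the field `k` with `q`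
elements: `E N` is the spectrum of the field with `q ^ N` elements, and `Ab` is the class of the motives
`Y = (X, p, 0)` isomorphic to `h¹(A)` for an abelian variety `A` over `k`. -/
structure AbelianMotives (K : Cohomology.{0, 0, 0, x} T) where
  E : ℕ → V
  /-- `E 1` is the point -/
  point : Nonempty (E 1 ≅ 𝟙_ V)
  dimE : ∀ N, 1 ≤ N → T.dim (E N) = 0
  /-- the `N`-th power of the Frobenius endomorphism of `E N` is the identity -/
  frobE : ∀ N, 1 ≤ N → frPow T (E N) N = 𝟙 (E N)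
  /-- the cohomology of `E N`: in degree `0`, eigenvalues of Frobenius the `N`-th roots of unity -/
  degE : ∀ N, 1 ≤ N → ∀ (i : ℤ) (x : K.H (E N)), x ∈ K.gr (E N) i → i ≠ 0 → x = 0
  rootE : ∀ N, 1 ≤ N → ∀ z : ℂ, z ^ N = 1 → K.mult (Mot.h T (E N)) z = 1
  /-- `E N × E N` is the disjoint union of the graphs of the powers of Frobenius -/
  sumE : ∀ N, 1 ≤ N → ∑ i ∈ Finset.range N, T.graph (frPow T (E N) i) = 1
  /-- `E N × E M` is a disjoint union of quotients of `E (N M)` -/
  prodE : ∀ N M, 1 ≤ N → 1 ≤ M → Within (Mot.h T (E N ⊗ E M)) (Mot.h T (E (N * M)))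
  Ab : Mot T → Prop
  /-- `Y = (X, p, 0)` has cohomology only in degree `1` -/
  twist : ∀ Y, Ab Y → Y.m = 0
  degree : ∀ Y, Ab Y → ∀ (i : ℤ) (x : K.H Y.X), x ∈ K.gr Y.X i → i ≠ 1 → K.act Y.p x = 0
  /-- a polarisation -/
  pol : ∀ Y, Ab Y → Isom (Y.dual.tensor (pt T (-1))) Y
  /-- finite dimensionality (Shermenev, Kimura) -/
  kimura : ∀ Y, Ab Y → TraceZero (Y.tensor Y)
  /-- Tate's theorem -/
  tate : ∀ Y, Ab Y → K.TateFormula Y
  num : ∀ Y, Ab Y → NumZero Y
  /-- products of abelian varieties -/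
  sum : ∀ Y Z, Ab Y → Ab Z → ∃ U, Ab U ∧ IsSum U Y Z
  /-- restriction of scalars from the extension of degree `N` -/
  res : ∀ Y, Ab Y → ∀ N, 1 ≤ N → Ab ((Mot.h T (E N)).tensor Y)

/-- The generators: the motives `h(E N)`, and the `Y` in `Ab` all of whose Frobenius eigenvalues are
in `Λ`. -/
def AbelianMotives.Gn {K : Cohomology.{0, 0, 0, x} T} (D : AbelianMotives K) (Λ : ℂ → Prop)
    (Y : Mot T) : Prop :=
  (∃ N, 1 ≤ N ∧ Y = Mot.h T (D.E N)) ∨ (D.Ab Y ∧ ∀ z : ℂ, K.mult Y z ≠ 0 → Λ z)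

/-- The Chow motives generated by those in `S` and the Tate motives `(point, 1, m)`, under tensor
products, duals, direct sums and direct summands. -/
inductive GenBy (S : Mot T → Prop) : Mot T → Prop
  | of (M : Mot T) : S M → GenBy S M
  | tate (m : ℤ) : GenBy S (pt T m)
  | tensor (M N : Mot T) : GenBy S M → GenBy S N → GenBy S (M.tensor N)
  | dual (M : Mot T) : GenBy S M → GenBy S M.dual
  | sum (L M N : Mot T) : IsSum L M N → GenBy S M → GenBy S N → GenBy S L
  | summand (M N : Mot T) (f : T.CH (M.X ⊗ N.X)) (g : T.CH (N.X ⊗ M.X)) : Split M N f g →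
    GenBy S N → GenBy S M

end CHS.Raw
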