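import Pool.Agent.WAG.Defs
import Pool.Agent.WAF.St

/-!
# Statements of block WAG, first part: abstract categories (MP_cb388a_ag and MP_6c4da4_ag, helper51)

Aim of block WAG: (1) the structure `AVT` of block WAF from the structure `AVE`, in which Tate's theorem and
the vanishing of numerically trivial elements are stated for `End (h¹(A))`; (2) (file `StC.lean`) the same
theorem for the category of Chow motives `Mot T` of the library `Pool/Agent/CHS`.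

Module `X`: theorem `t_X : S_X` (or `t_X : S_Y → S_Z → S_X` if the doc string says USES `Y`, `Z`; do not
import the other modules of WAG) in `Pool/Agent/WAG/X.lean`.  All files of `Pool/Agent/TJ2`, `WAV`, `WAE`,
`WAF`, `MotP`, `Mot73`, `Mot84` can be imported.
-/

open CategoryTheory MonoidalCategory BraidedCategory Limits Polynomial

universe v u

namespace Pool.Agent.WAG

open Pool.Agent.TJ2 Pool.Agent.WAE Pool.Agent.WAF

noncomputable section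

/-- ETN. From `End Y` to `Hom (T, Y ⊗ Y)`.
PROOF. `φ : Yᘁ ⊗ T ≅ Y` (`pol`); `tensorLeftHomEquiv T Y Yᘁ Y : (Yᘁ ⊗ T ⟶ Y) ≃ (T ⟶ Y ⊗ Y)` is linear, so
`f ↦ tensorLeftHomEquiv (φ.hom ≫ f)` is a linear equivalence `(Y ⟶ Y) ≃ (T ⟶ Y ⊗ Y)`: equal dimensions.
If `s ≫ r = 0` for all `r : Y ⊗ Y ⟶ T`, then `s` is numerically trivial, and so is
`f = φ.inv ≫ (tensorLeftHomEquiv ..).symm s = φ.inv ≫ Yᘁ ◁ s ≫ (α ..).inv ≫ ε_ Y Yᘁ ▷ Y ≫ (λ_ Y).hom`
(`trace (f ≫ g) = trace ((Yᘁ ◁ s) ≫ g')` for some `g' : Yᘁ ⊗ (Y ⊗ Y) ⟶ Yᘁ ⊗ T`, and this is the trace of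
`s ≫ r`, `r` the partial trace of `g'`; look first for a lemma that whiskering or tensoring preserves
`NumTrivial` in `MotP`, `Mot73`, `TJ2/CAT.lean`; another way: `NumTrivial` of `f : X ⟶ Y` is equivalent to that
of the section `𝟙_ ⟶ Y ⊗ Xᘁ` corresponding to it, `MotP.nmL`, `nm_mem_iff`), so `f = 0` by `num`, `s = 0`. -/
def S_ETN : Prop :=
  ∀ (C : Type u) [Category.{v} C] [Preadditive C] [Linear ℚ C] [MonoidalCategory C]
    [SymmetricCategory C] [MonoidalPreadditive C] [MonoidalLinear ℚ C] [RightRigidCategory C]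
    (T Y : C), Nonempty (Yᘁ ⊗ T ≅ Y) → (∀ f : Y ⟶ Y, MotP.NumTrivial f → f = 0) →
    Module.finrank ℚ (T ⟶ Y ⊗ Y) = Module.finrank ℚ (Y ⟶ Y) ∧
      ∀ s : T ⟶ Y ⊗ Y, (∀ r : Y ⊗ Y ⟶ T, s ≫ r = 0) → s = 0

/-- SYM. The symmetry of the eigenvalues.  USES (of WAF) `S_TRF`, `S_MUL` (`WAF/TRF.lean`, `WAF/MUL.lean`).
PROOF. `P` from `semi`.  (a) `F = F_Y` is invertible: let `G : Y ⟶ Y` with `rightAdjointMate G = F_(Yᘁ)` (the
mate is a bijection: `MotP`, `TJ2/INZ.lean`, `Mathlib` `rightAdjointMate`, or `tensorLeftHomEquiv`); by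
naturality of `F` at `η_ Y Yᘁ : 𝟙_ ⟶ Y ⊗ Yᘁ`, `F_(𝟙_) = 𝟙`, `F_(Y ⊗ Yᘁ) = F_Y ⊗ₘ F_(Yᘁ)` and
`η ≫ Y ◁ Gᘁ = η ≫ G ▷ Yᘁ`: `η ≫ (G ≫ F) ▷ Yᘁ = η`, so `G ≫ F = 𝟙`, and `F ≫ G = G ≫ F` (naturality).
(b) `0 ∉ odd Y`: else `P = X * P'`, `F * P' (F) = 0`, so `P' (F) = 0`, and TRF for `P'` gives
`0 = - ∑_(a ∈ odd Y) P' (a) = - count 0 * P' (0)`, `P' (0) ≠ 0` as `P` is squarefree.
(c) `R : ℚ[X]` with `X * R ≡ 1` modulo `P` (`P (0) ≠ 0` by (b) and `semi`): `R (F) = G`, `R (a) = 1 / a` for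
`a ∈ odd Y`.  For all `n`: the isomorphism `Yᘁ ⊗ T ≅ Y` gives
`trace (F_Y ^ n) = trace (F_(Yᘁ) ^ n) * trace (F_T ^ n)`, `F_T = q`, `trace (𝟙 T) = 𝟙` (as in `t_KE1`, `t_KEX`),
`trace (F_(Yᘁ) ^ n) = trace (G ^ n) = trace (R ^ n (F))` (the trace of the mate is the trace), so TRF with
`X ^ n` and `R ^ n` gives `∑ a ^ n = q ^ n ∑ (1 / a) ^ n`; MUL. -/
def S_SYM : Prop :=
  ∀ (C : Type u) [Category.{v} C] [Preadditive C] [Linear ℚ C] [MonoidalCategory C]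
    [SymmetricCategory C] [MonoidalPreadditive C] [MonoidalLinear ℚ C] [RightRigidCategory C]
    (W : MotP.Frobenius C) (q : ℕ) (D : AVE W q), 2 ≤ q → ∀ Y : C, D.Ab Y →
    (0 : ℂ) ∉ W.odd Y ∧ (W.odd Y).map (fun z => (q : ℂ) / z) = W.odd Y

/-- NPS. Counting pairs.
PROOF. `nPairs q s` is the sum over `a` in `s` (with multiplicity) of `count (q / a) s`, and
`count (q / a) s = count (q / a) (s.map (q / ·)) = count a s` as `z ↦ q / z` is injective on the nonzero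
numbers (`q ≠ 0`). -/
def S_NPS : Prop :=
  ∀ (q : ℕ) (s : Multiset ℂ), 1 ≤ q → (0 : ℂ) ∉ s → s.map (fun z => (q : ℂ) / z) = s →
    nPairs q s = sqs s

end

end Pool.Agent.WAG
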