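import Pool.Agent.HL.WlDefs

/-!
# Weil-etale cohomology and exterior products of cycles: definitions (MP_cb388a_ag, helper51)
-/

set_option autoImplicit false

open CategoryTheory MonoidalCategory CartesianMonoidalCategory
open WEt (Ab)

universe x

namespace CHS

variable {V : Type} [Category.{0} V] [CartesianMonoidalCategory V]

/-- `WeilCoh K`, and the correspondence `ext z g` is the exterior product of the cycles of `z` and
of `g`. -/
structure WeilProducts {Th : ChowTheory.{0, 0, 0} V} (K : Cohomology.{0, 0, 0, x} Th) extends
    WeilCoh K where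
  exterior : ∀ X n m e (z : (coh X).Cyc n) (g : (coh X).Cyc m),
    ∀ a ∈ Th.cyc (v X) n, ∀ b ∈ Th.cyc (v X) m,
      (cls X n).cl a = Ab.one _ ((((coh X).W n).res _).ap z) →
      (cls X m).cl b = Ab.one _ ((((coh X).W m).res _).ap g) →
      (corr X).val ((ext X n m e).ext z g) =
        Th.pull (fst (v X) (v X)) b * Th.pull (snd (v X) (v X)) a

end CHS
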